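import Pool.Agent.Helper35.Spl.Smooth

set_option autoImplicit false

namespace Pool.Agent.Helper35.Spl

open MvPolynomial

/-- Nodal data: value and gradient at the vertices, and the central Bézier coefficients. -/
abbrev Dat := (Fin 18 → ND) × (Fin 31 → ℝ)

noncomputable def q (n : Dat) (t : Fin 31) : MvPolynomial (Fin 2) ℝ :=
  qP (P (tri t 0)) (P (tri t 1)) (P (tri t 2)) (n.1 (tri t 0)) (n.1 (tri t 1)) (n.1 (tri t 2)) (n.2 t)

theorem q_rot (n : Dat) (t : Fin 31) (k : Fin 3) :
    q n t = qP (P (tri t k)) (P (tri t (k + 1))) (P (tri t (k + 2)))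
      (n.1 (tri t k)) (n.1 (tri t (k + 1))) (n.1 (tri t (k + 2))) (n.2 t) := by
  have e0 : qP (P (tri t 1)) (P (tri t 2)) (P (tri t 0)) (n.1 (tri t 1)) (n.1 (tri t 2))
      (n.1 (tri t 0)) (n.2 t) = q n t := qP_rot _ _ _ _ _ _ _
  have e1 : qP (P (tri t 2)) (P (tri t 0)) (P (tri t 1)) (n.1 (tri t 2)) (n.1 (tri t 0))
      (n.1 (tri t 1)) (n.2 t) = q n t := by
    rw [← e0]; exact qP_rot _ _ _ _ _ _ _
  fin_cases k
  · rfl
  · exact e0.symm
  · exact e1.symm

theorem q_vertex (n : Dat) {t : Fin 31} {v : Fin 18} (hv : v ∈ triS t) :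
    eval ![(P v).1, (P v).2] (q n t) = (n.1 v).1 ∧
    ∀ i : Fin 2, eval ![(P v).1, (P v).2] (pderiv i (q n t)) = 3 * gd (n.1 v) i := by
  obtain ⟨k, rfl⟩ := mem_triS.1 hv
  rw [q_rot n t k]
  have hD := (area_pos' t k).ne'
  exact ⟨val_vertex hD _ _ _ _, fun i => grad_vertex hD _ _ _ _ i⟩

noncomputable def condE (n : Dat) (e : Fin 45) : ℝ :=
  cond (P (eA e)) (P (eB e)) (P (eC e)) (P (eD e)) (n.1 (eA e)) (n.1 (eB e)) (n.2 (edge e).1)
    (n.2 (edge e).2.2.1)

theorem regroup {m : ℕ} (φ : Fin 45 → Zu) (idx : Fin 45 → Fin m) (f : Fin m → ℝ) :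
    ∑ e, ev (φ e) * f (idx e) = ∑ v, ev (∑ e, (if idx e = v then φ e else 0)) * f v := by
  have h1 : ∀ v, ev (∑ e, (if idx e = v then φ e else 0)) * f v
      = ∑ e, (if idx e = v then ev (φ e) * f v else 0) := by
    intro v
    rw [ev_sum, Finset.sum_mul]
    apply Finset.sum_congr rfl
    intro e _
    split_ifs
    · rfl
    · rw [ev_zero, zero_mul]
  simp_rw [h1]
  rw [Finset.sum_comm]
  apply Finset.sum_congr rfl
  intro e _
  rw [Finset.sum_ite_eq]
  simp

theorem regroup2 {m : ℕ} (φ ψ : Fin 45 → Zu) (idx idy : Fin 45 → Fin m) (f : Fin m → ℝ)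
    (h : ∀ v, (∑ e, (if idx e = v then φ e else 0)) + (∑ e, (if idy e = v then ψ e else 0)) = 0) :
    ∑ e, ev (φ e) * f (idx e) + ∑ e, ev (ψ e) * f (idy e) = 0 := by
  rw [regroup, regroup, ← Finset.sum_add_distrib]
  apply Finset.sum_eq_zero
  intro v _
  rw [← add_mul, ← ev_add, h v, ev_zero, zero_mul]

theorem dependency (n : Dat) : ∑ e, ev (gam e) * condE n e = 0 := by
  have h1 := regroup2 k1 k2 eA eB (fun v => (n.1 v).1) dep_f
  have h2 := regroup2 (fun e => zmul (k1 e) (px (eB e) - px (eA e)))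
    (fun e => zmul (k2 e) (px (eA e) - px (eB e))) eA eB (fun v => (n.1 v).2.1) dep_x
  have h3 := regroup2 (fun e => zmul (k1 e) (py (eB e) - py (eA e)))
    (fun e => zmul (k2 e) (py (eA e) - py (eB e))) eA eB (fun v => (n.1 v).2.2) dep_y
  have h4 := regroup2 k3 k4 (fun e => (edge e).1) (fun e => (edge e).2.2.1) (fun t => n.2 t) dep_b
  rw [← Finset.sum_add_distrib] at h1 h2 h3 h4
  have h5 : ∑ e, ev (gam e) * condE n e =
      ∑ e, (ev (k1 e) * (n.1 (eA e)).1 + ev (k2 e) * (n.1 (eB e)).1)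
      + ∑ e, (ev (zmul (k1 e) (px (eB e) - px (eA e))) * (n.1 (eA e)).2.1
        + ev (zmul (k2 e) (px (eA e) - px (eB e))) * (n.1 (eB e)).2.1)
      + ∑ e, (ev (zmul (k1 e) (py (eB e) - py (eA e))) * (n.1 (eA e)).2.2
        + ev (zmul (k2 e) (py (eA e) - py (eB e))) * (n.1 (eB e)).2.2)
      - ∑ e, (ev (k3 e) * n.2 (edge e).1 + ev (k4 e) * n.2 (edge e).2.2.1) := by
    rw [← Finset.sum_add_distrib, ← Finset.sum_add_distrib, ← Finset.sum_sub_distrib]
    apply Finset.sum_congr rfl
    intro e _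
    simp only [k1, k2, k3, k4, ev_mul, ev_sub, ev_zcr, condE, cond, bz]
    simp only [P]
    ring
  rw [h5, h1, h2, h3, h4]
  ring

theorem condE_all {n : Dat} (h : ∀ j : Fin 44, condE n j.succ = 0) (e : Fin 45) : condE n e = 0 := by
  have hd := dependency n
  rw [Fin.sum_univ_succ] at hd
  simp only [h, mul_zero, Finset.sum_const_zero, add_zero] at hd
  have hg : ev (gam 0) ≠ 0 := by
    have := ev_pos gam_zero_pos
    rw [ev_neg] at this
    intro h'
    rw [h'] at this
    simp at this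
  have h0 := (mul_eq_zero.1 hd).resolve_left hg
  refine Fin.cases ?_ ?_ e
  · exact h0
  · exact h

theorem fact_cap : ∀ e : Fin 45, triS (edge e).1 ∩ triS (edge e).2.2.1 = {eA e, eB e} := by
  decide +kernel

theorem match_e {n : Dat} (hn : ∀ e, condE n e = 0) (e : Fin 45) {x : ℝ × ℝ}
    (hx : x ∈ convexHull ℝ (P '' ((triS (edge e).1 ∩ triS (edge e).2.2.1 : Finset (Fin 18)) : Set (Fin 18)))) :
    eval ![x.1, x.2] (q n (edge e).1) = eval ![x.1, x.2] (q n (edge e).2.2.1) ∧
    ∀ i : Fin 2, eval ![x.1, x.2] (pderiv i (q n (edge e).1))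
      = eval ![x.1, x.2] (pderiv i (q n (edge e).2.2.1)) := by
  rw [fact_cap e] at hx
  have e1 : P '' (({eA e, eB e} : Finset (Fin 18)) : Set (Fin 18)) = {P (eA e), P (eB e)} := by
    simp [Set.image_pair]
  rw [e1, convexHull_pair] at hx
  obtain ⟨μ, ν, -, -, hμν, rfl⟩ := hx
  obtain ⟨f1, f2⟩ := fact_edge e
  have hD := (area_pos' (edge e).1 (edge e).2.1).ne'
  have hD' := (area_pos' (edge e).2.2.1 (edge e).2.2.2).ne'
  rw [← f1, ← f2] at hD'
  have r1 := q_rot n (edge e).1 (edge e).2.1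
  have r2 := q_rot n (edge e).2.2.1 (edge e).2.2.2
  rw [← f1, ← f2] at r2
  rw [r1, r2]
  exact match_edge hD hD' _ _ _ _ _ _ (hn e) hμν

theorem match_all {n : Dat} (hn : ∀ e, condE n e = 0) (t s : Fin 31) {x : ℝ × ℝ}
    (hx : x ∈ convexHull ℝ (P '' ((triS t ∩ triS s : Finset (Fin 18)) : Set (Fin 18)))) :
    eval ![x.1, x.2] (q n t) = eval ![x.1, x.2] (q n s) ∧
    ∀ i : Fin 2, eval ![x.1, x.2] (pderiv i (q n t)) = eval ![x.1, x.2] (pderiv i (q n s)) := by
  by_cases hts : t = s
  · subst hts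
    exact ⟨rfl, fun _ => rfl⟩
  rcases (triS t ∩ triS s).eq_empty_or_nonempty with he | ⟨v, hv⟩
  · rw [he] at hx
    simp at hx
  · by_cases hone : triS t ∩ triS s = {v}
    · rw [hone] at hx
      have e1 : P '' (({v} : Finset (Fin 18)) : Set (Fin 18)) = {P v} := by simp
      rw [e1, convexHull_singleton, Set.mem_singleton_iff] at hx
      subst hx
      have hv' := Finset.mem_inter.1 hv
      obtain ⟨a1, a2⟩ := q_vertex n hv'.1
      obtain ⟨b1, b2⟩ := q_vertex n hv'.2
      exact ⟨a1.trans b1.symm, fun i => (a2 i).trans (b2 i).symm⟩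
    · have : ∃ v' ∈ triS t ∩ triS s, v' ≠ v := by
        by_contra hcon
        push Not at hcon
        apply hone
        ext y
        simp only [Finset.mem_singleton]
        constructor
        · exact hcon y
        · rintro rfl; exact hv
      obtain ⟨v', hv', hne⟩ := this
      have hv1 := Finset.mem_inter.1 hv
      have hv2 := Finset.mem_inter.1 hv'
      obtain ⟨i, hi⟩ := mem_triS.1 hv1.1
      obtain ⟨j, hj⟩ := mem_triS.1 hv1.2
      obtain ⟨i', hi'⟩ := mem_triS.1 hv2.1
      obtain ⟨j', hj'⟩ := mem_triS.1 hv2.2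
      have hii : i ≠ i' := by
        rintro rfl
        exact hne (hi'.symm.trans hi)
      obtain ⟨e, he⟩ := fact_share t s hts i i' hii ⟨j, hi.trans hj.symm⟩ ⟨j', hi'.trans hj'.symm⟩
      rcases he with ⟨h1, h2⟩ | ⟨h1, h2⟩
      · subst h1 h2
        exact match_e hn e hx
      · subst h1 h2
        rw [Finset.inter_comm] at hx
        obtain ⟨m1, m2⟩ := match_e hn e hx
        exact ⟨m1.symm, fun i => (m2 i).symm⟩

/-- The smoothness conditions, with one dropped, as a linear map. -/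
noncomputable def condL : Dat →ₗ[ℝ] (Fin 44 → ℝ) where
  toFun n j := condE n j.succ
  map_add' n m := by
    funext j
    simp only [condE, cond, bz, Prod.fst_add, Prod.snd_add, Pi.add_apply]
    ring
  map_smul' c n := by
    funext j
    simp only [condE, cond, bz, Prod.smul_fst, Prod.smul_snd, Pi.smul_apply, smul_eq_mul,
      RingHom.id_apply]
    ring

theorem ker_dim : 41 ≤ Module.finrank ℝ (LinearMap.ker condL) := by
  have h1 := LinearMap.finrank_range_add_finrank_ker condL
  have h2 : Module.finrank ℝ Dat = 85 := by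
    have h4 : Module.finrank ℝ (Fin 18 → ND) = 54 := by
      rw [Module.finrank_pi_fintype]
      simp [ND]
    have h5 : Module.finrank ℝ (Fin 31 → ℝ) = 31 := by simp
    show Module.finrank ℝ ((Fin 18 → ND) × (Fin 31 → ℝ)) = 85
    rw [Module.finrank_prod, h4, h5]
  have h3 : Module.finrank ℝ (LinearMap.range condL) ≤ 44 := by
    have := Submodule.finrank_le (LinearMap.range condL)
    simpa using this
  omega

theorem exists_idx (t : TT) : ∃ i, triP i = t.1 := mem_TT.1 t.2

noncomputable def idx (t : TT) : Fin 31 := (exists_idx t).choose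

theorem idx_spec (t : TT) : triP (idx t) = t.1 := (exists_idx t).choose_spec

theorem idx_mk (i : Fin 31) : idx ⟨triP i, mem_TT.2 ⟨i, rfl⟩⟩ = i := by
  apply triP_inj
  rw [idx_spec]

/-- The spline with given nodal data. -/
noncomputable def Phi : Dat →ₗ[ℝ] (TT → MvPolynomial (Fin 2) ℝ) where
  toFun n t := q n (idx t)
  map_add' n m := by
    funext t
    simp only [q, qP, bz, Prod.fst_add, Prod.snd_add, Pi.add_apply, mul_add, add_mul, C_add]
    ring
  map_smul' c n := by
    funext t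
    simp only [q, qP, bz, Prod.smul_fst, Prod.smul_snd, Pi.smul_apply, smul_eq_mul,
      RingHom.id_apply, smul_eq_C_mul, mul_add, C_add, C_mul]
    ring

theorem Phi_inj : Function.Injective Phi := by
  rw [← LinearMap.ker_eq_bot, LinearMap.ker_eq_bot']
  intro n hn
  have hq : ∀ i, q n i = 0 := by
    intro i
    have := congrFun hn ⟨triP i, mem_TT.2 ⟨i, rfl⟩⟩
    simp only [Phi, LinearMap.coe_mk, AddHom.coe_mk, Pi.zero_apply] at this
    rw [idx_mk] at this
    exact this
  have h1 : n.1 = 0 := by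
    funext v
    have : ∃ t : Fin 31, v ∈ triS t := by
      revert v; decide +kernel
    obtain ⟨t, ht'⟩ := this
    obtain ⟨a1, a2⟩ := q_vertex n ht'
    rw [hq t] at a1 a2
    simp only [map_zero] at a1 a2
    have b1 := a2 0
    have b2 := a2 1
    simp only [gd, if_true, one_ne_zero, if_false] at b1 b2
    refine Prod.ext a1.symm (Prod.ext ?_ ?_)
    · show (n.1 v).2.1 = 0
      linarith
    · show (n.1 v).2.2 = 0
      linarith
  have h2 : n.2 = 0 := by
    funext t
    have hD := (area_pos t).ne'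
    have h := hq t
    rw [q, h1] at h
    set A := P (tri t 0)
    set B := P (tri t 1)
    set E := P (tri t 2)
    set x : ℝ × ℝ := ((A.1 + B.1 + E.1) / 3, (A.2 + B.2 + E.2) / 3) with hx
    have h' := congrArg (eval ![x.1, x.2]) h
    rw [eval_qP, map_zero] at h'
    have c1 : cr x B E / cr A B E = 1 / 3 := by
      rw [div_eq_iff hD, hx]
      simp only [cr]
      ring
    have c2 : cr x E A / cr A B E = 1 / 3 := by
      rw [div_eq_iff hD, hx]
      simp only [cr]
      ring
    have c3 : cr x A B / cr A B E = 1 / 3 := by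
      rw [div_eq_iff hD, hx]
      simp only [cr]
      ring
    rw [c1, c2, c3] at h'
    simp only [bz, Pi.zero_apply, Prod.fst_zero, Prod.snd_zero] at h'
    show n.2 t = 0
    linarith
  exact Prod.ext h1 h2

/-- The spline conditions of the frozen statement. -/
def SplSet (T : Finset (Finset (ℝ × ℝ))) : Set (T → MvPolynomial (Fin 2) ℝ) :=
  {p : T → MvPolynomial (Fin 2) ℝ |
          (∀ t, (p t).totalDegree ≤ 3) ∧
          ∀ t s : T, ∀ x ∈ convexHull ℝ ((t : Finset (ℝ × ℝ)) : Set (ℝ × ℝ)) ∩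
              convexHull ℝ ((s : Finset (ℝ × ℝ)) : Set (ℝ × ℝ)),
            MvPolynomial.eval ![x.1, x.2] (p t) = MvPolynomial.eval ![x.1, x.2] (p s) ∧
            ∀ i : Fin 2, MvPolynomial.eval ![x.1, x.2] (MvPolynomial.pderiv i (p t)) =
              MvPolynomial.eval ![x.1, x.2] (MvPolynomial.pderiv i (p s))}

theorem Phi_mem {n : Dat} (hn : n ∈ LinearMap.ker condL) : Phi n ∈ SplSet TT := by
  have hc : ∀ e, condE n e = 0 := by
    apply condE_all
    intro j
    exact congrFun (LinearMap.mem_ker.1 hn) j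
  refine ⟨fun t => qP_deg _ _ _ _ _ _ _, ?_⟩
  intro t s x hx
  rw [← idx_spec t, ← idx_spec s] at hx
  exact match_all hc (idx t) (idx s) (conv_common _ _ x hx.1 hx.2)

theorem dim_ge (h : Module.Finite ℝ (Submodule.span ℝ (SplSet TT))) :
    41 ≤ Module.finrank ℝ (Submodule.span ℝ (SplSet TT)) := by
  let Ψ : LinearMap.ker condL →ₗ[ℝ] Submodule.span ℝ (SplSet TT) :=
    LinearMap.codRestrict _ (Phi.comp (LinearMap.ker condL).subtype)
      (fun n => Submodule.subset_span (Phi_mem n.2))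
  have hΨ : Function.Injective Ψ := by
    intro a b hab
    have : Phi a.1 = Phi b.1 := congrArg Subtype.val hab
    exact Subtype.ext (Phi_inj this)
  exact ker_dim.trans (LinearMap.finrank_le_finrank_of_injective hΨ)

end Pool.Agent.Helper35.Spl
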