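import Pool.Agent.Helper35.Spl.Topo

set_option autoImplicit false

namespace Pool.Agent.Helper35.Spl

theorem fact_edges_all : ∀ t : Fin 31, ∀ i i' : Fin 3, i ≠ i' →
    (∃ e : Fin 45, (eA e = tri t i ∧ eB e = tri t i') ∨ (eA e = tri t i' ∧ eB e = tri t i)) ∨
    (tri t i < 3 ∧ tri t i' < 3) := by
  decide +kernel

theorem fact_edge_inj : ∀ e e' : Fin 45,
    (eA e = eA e' ∧ eB e = eB e') ∨ (eA e = eB e' ∧ eB e = eA e') → e = e' := by
  decide +kernel

theorem fact_edge_ne : ∀ e : Fin 45, eA e ≠ eB e := by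
  decide +kernel

/-- An interior edge as a set of points. -/
noncomputable def edP (e : Fin 45) : Finset (ℝ × ℝ) := ({eA e, eB e} : Finset (Fin 18)).map Pe

theorem edP_inj : Function.Injective edP := by
  intro e e' h
  have h' : ({eA e, eB e} : Finset (Fin 18)) = {eA e', eB e'} := Finset.map_injective Pe h
  apply fact_edge_inj
  have h1 : eA e ∈ ({eA e', eB e'} : Finset (Fin 18)) := by rw [← h']; simp
  have h2 : eB e ∈ ({eA e', eB e'} : Finset (Fin 18)) := by rw [← h']; simp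
  have h3 := fact_edge_ne e
  simp only [Finset.mem_insert, Finset.mem_singleton] at h1 h2
  rcases h1 with h1 | h1 <;> rcases h2 with h2 | h2
  · exact absurd (h1.trans h2.symm) h3
  · exact Or.inl ⟨h1, h2⟩
  · exact Or.inr ⟨h1, h2⟩
  · exact absurd (h1.trans h2.symm) h3

theorem mid_edge (e : Fin 45) : midpoint ℝ (P (eA e)) (P (eB e)) ∈ interior Om := by
  obtain ⟨h1, h2, h3⟩ := fact_mid e
  have h1 := ev_pos h1
  have h2 := ev_pos h2
  have h3 := ev_pos h3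
  have : ev zN = NN := by simp [ev, zN]
  rw [ev_add] at h1 h2
  rw [ev_sub, ev_sub, ev_sub, ev_sub, ev_add, this] at h3
  rw [interior_Om, midpoint_eq_smul_add]
  simp only [Set.mem_ofPred_eq, Prod.smul_fst, Prod.smul_snd, Prod.fst_add, Prod.snd_add, smul_eq_mul, P,
    invOf_eq_inv, eA, eB]
  refine ⟨by positivity, by positivity, by linarith⟩

theorem mid_bd {a b : Fin 18} (ha : a < 3) (hb : b < 3) : midpoint ℝ (P a) (P b) ∉ interior Om := by
  have ha' := lt3 (not_le.2 ha)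
  have hb' := lt3 (not_le.2 hb)
  have hN := NN_pos
  rw [interior_Om, midpoint_eq_smul_add]
  intro h
  simp only [Set.mem_ofPred_eq, Prod.smul_fst, Prod.smul_snd, Prod.fst_add, Prod.snd_add, smul_eq_mul,
    invOf_eq_inv] at h
  obtain ⟨h1, h2, h3⟩ := h
  rcases ha' with rfl | rfl | rfl <;> rcases hb' with rfl | rfl | rfl <;>
    simp only [P0, P1, P2] at h1 h2 h3 <;> linarith

theorem count_edges : {e : Finset (ℝ × ℝ) | e.card = 2 ∧ (∃ t ∈ TT, e ⊆ t) ∧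
      ∀ a ∈ e, ∀ b ∈ e, a ≠ b → midpoint ℝ a b ∈ interior Om}.ncard = 45 := by
  have e : {e : Finset (ℝ × ℝ) | e.card = 2 ∧ (∃ t ∈ TT, e ⊆ t) ∧
      ∀ a ∈ e, ∀ b ∈ e, a ≠ b → midpoint ℝ a b ∈ interior Om} = edP '' Set.univ := by
    ext x
    simp only [Set.mem_ofPred_eq, mem_TT, Set.image_univ, Set.mem_range]
    constructor
    · rintro ⟨hc, ⟨_, ⟨t, rfl⟩, hx⟩, hm⟩
      rw [triP, Finset.subset_map_iff] at hx
      obtain ⟨y, hy, rfl⟩ := hx
      rw [Finset.card_map, Finset.card_eq_two] at hc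
      obtain ⟨a, b, hab, rfl⟩ := hc
      have ha : a ∈ triS t := hy (by simp)
      have hb : b ∈ triS t := hy (by simp)
      obtain ⟨i, hi⟩ := mem_triS.1 ha
      obtain ⟨i', hi'⟩ := mem_triS.1 hb
      have hii : i ≠ i' := by
        rintro rfl
        exact hab (hi.symm.trans hi')
      rcases fact_edges_all t i i' hii with ⟨e, he⟩ | ⟨h1, h2⟩
      · refine ⟨e, ?_⟩
        rw [hi, hi'] at he
        rcases he with ⟨h1, h2⟩ | ⟨h1, h2⟩
        · rw [edP, h1, h2]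
        · rw [edP, h1, h2, Finset.pair_comm]
      · exfalso
        rw [hi] at h1
        rw [hi'] at h2
        refine mid_bd h1 h2 (hm _ (Finset.mem_map_of_mem Pe (by simp)) _
          (Finset.mem_map_of_mem Pe (by simp)) ?_)
        intro h
        exact hab (P_inj h)
    · rintro ⟨e, rfl⟩
      refine ⟨?_, ?_, ?_⟩
      · rw [edP, Finset.card_map, Finset.card_eq_two]
        exact ⟨_, _, fact_edge_ne e, rfl⟩
      · refine ⟨triP (edge e).1, ⟨_, rfl⟩, ?_⟩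
        rw [edP, triP, Finset.map_subset_map]
        intro v hv
        simp only [Finset.mem_insert, Finset.mem_singleton] at hv
        rcases hv with rfl | rfl
        · exact mem_triS.2 ⟨_, rfl⟩
        · exact mem_triS.2 ⟨_, rfl⟩
      · intro a ha b hb hab
        rw [edP, Finset.mem_map] at ha hb
        obtain ⟨v, hv, rfl⟩ := ha
        obtain ⟨v', hv', rfl⟩ := hb
        simp only [Finset.mem_insert, Finset.mem_singleton] at hv hv'
        rcases hv with rfl | rfl <;> rcases hv' with rfl | rfl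
        · exact absurd rfl hab
        · exact mid_edge e
        · rw [midpoint_comm]; exact mid_edge e
        · exact absurd rfl hab
  rw [e, Set.ncard_image_of_injective _ edP_inj, Set.ncard_univ, Nat.card_eq_fintype_card,
    Fintype.card_fin]

def nb1 : Fin 18 → Fin 18 := ![1, 0, 0, 7, 6, 6, 4, 3, 3, 1, 0, 0, 2, 0, 1, 1, 2, 0]
def nb2 : Fin 18 → Fin 18 := ![2, 2, 1, 8, 8, 7, 5, 5, 4, 2, 2, 1, 4, 5, 3, 5, 3, 4]
def nb3 : Fin 18 → Fin 18 := ![13, 14, 12, 14, 12, 13, 7, 6, 6, 3, 4, 5, 16, 17, 15, 14, 12, 13]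

theorem fact_nb : ∀ m : Fin 18,
    ((∃ t, m ∈ triS t ∧ nb1 m ∈ triS t) ∧ (∃ t, m ∈ triS t ∧ nb2 m ∈ triS t) ∧
      (∃ t, m ∈ triS t ∧ nb3 m ∈ triS t)) ∧
    (zpos (zcr m (nb1 m) (nb2 m)) ∨ zpos (-zcr m (nb1 m) (nb2 m))) ∧
    (zpos (zcr m (nb1 m) (nb3 m)) ∨ zpos (-zcr m (nb1 m) (nb3 m))) ∧
    (zpos (zcr m (nb2 m) (nb3 m)) ∨ zpos (-zcr m (nb2 m) (nb3 m))) := by
  decide +kernel

theorem cr_ne {a b c : Fin 18} (h : zpos (zcr a b c) ∨ zpos (-zcr a b c)) :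
    cr (P a) (P b) (P c) ≠ 0 := by
  rw [← ev_zcr]
  rcases h with h | h
  · exact (ev_pos h).ne'
  · have := ev_pos h
    rw [ev_neg] at this
    intro h'
    rw [h'] at this
    simp at this

theorem cr_mult {a b c d : ℝ × ℝ} (h1 : ∃ k : ℝ, b - a = k • d) (h2 : ∃ k : ℝ, c - a = k • d) :
    cr a b c = 0 := by
  obtain ⟨k, hk⟩ := h1
  obtain ⟨l, hl⟩ := h2
  have e1 := congrArg Prod.fst hk
  have e2 := congrArg Prod.snd hk
  have e3 := congrArg Prod.fst hl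
  have e4 := congrArg Prod.snd hl
  simp only [Prod.fst_sub, Prod.snd_sub, Prod.smul_fst, Prod.smul_snd, smul_eq_mul] at e1 e2 e3 e4
  rw [cr, e1, e2, e3, e4]
  ring

theorem count_singular : {v : ℝ × ℝ | (∃ t ∈ TT, v ∈ t) ∧ v ∈ interior Om ∧
              ∃ d₁ d₂ : ℝ × ℝ, ∀ t ∈ TT, v ∈ t → ∀ w ∈ t,
                (∃ c : ℝ, w - v = c • d₁) ∨ (∃ c : ℝ, w - v = c • d₂)}.ncard = 0 := by
  have e : {v : ℝ × ℝ | (∃ t ∈ TT, v ∈ t) ∧ v ∈ interior Om ∧
              ∃ d₁ d₂ : ℝ × ℝ, ∀ t ∈ TT, v ∈ t → ∀ w ∈ t,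
                (∃ c : ℝ, w - v = c • d₁) ∨ (∃ c : ℝ, w - v = c • d₂)} = ∅ := by
    rw [Set.eq_empty_iff_forall_notMem]
    rintro x ⟨⟨s, hs, hxs⟩, -, d₁, d₂, H⟩
    obtain ⟨t, rfl⟩ := mem_TT.1 hs
    rw [triP, Finset.mem_map] at hxs
    obtain ⟨m, -, rfl⟩ := hxs
    obtain ⟨⟨⟨t1, hm1, hn1⟩, ⟨t2, hm2, hn2⟩, ⟨t3, hm3, hn3⟩⟩, h12, h13, h23⟩ := fact_nb m
    have q1 := H (triP t1) (mem_TT.2 ⟨_, rfl⟩) (Finset.mem_map_of_mem Pe hm1) _
      (Finset.mem_map_of_mem Pe hn1)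
    have q2 := H (triP t2) (mem_TT.2 ⟨_, rfl⟩) (Finset.mem_map_of_mem Pe hm2) _
      (Finset.mem_map_of_mem Pe hn2)
    have q3 := H (triP t3) (mem_TT.2 ⟨_, rfl⟩) (Finset.mem_map_of_mem Pe hm3) _
      (Finset.mem_map_of_mem Pe hn3)
    have c12 := cr_ne h12
    have c13 := cr_ne h13
    have c23 := cr_ne h23
    rcases q1 with q1 | q1 <;> rcases q2 with q2 | q2 <;> rcases q3 with q3 | q3
    · exact c12 (cr_mult q1 q2)
    · exact c12 (cr_mult q1 q2)
    · exact c13 (cr_mult q1 q3)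
    · exact c23 (cr_mult q2 q3)
    · exact c23 (cr_mult q2 q3)
    · exact c13 (cr_mult q1 q3)
    · exact c12 (cr_mult q1 q2)
    · exact c12 (cr_mult q1 q2)
  rw [e, Set.ncard_empty]

end Pool.Agent.Helper35.Spl
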