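import Pool.Agent.Helper35.Spl.Geom

set_option autoImplicit false

namespace Pool.Agent.Helper35.Spl

theorem fin3_a (k : Fin 3) : k + 1 + 1 = k + 2 := by revert k; decide

theorem bary_nonneg {x : ℝ × ℝ} (hx : x ∈ Om) {t : Fin 31} (ht' : ∀ s, ell s x ≤ ell t x) (k : Fin 3) :
    0 ≤ cr (P (tri t k)) (P (tri t (k + 1))) x := by
  obtain ⟨hx1, hx2, hx3⟩ := hx
  have hN := NN_pos
  rcases fact_halfedge t k with h | h | h | ⟨s, j, hj1, hj2, hc0, hc1, hc2⟩
  · obtain ⟨ha, hb⟩ := Prod.mk.inj h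
    rw [ha, hb, P0, P1]
    simp only [cr, sub_zero]
    have : 0 ≤ (NN : ℝ) * x.2 := mul_nonneg hN.le hx2
    linarith
  · obtain ⟨ha, hb⟩ := Prod.mk.inj h
    rw [ha, hb, P1, P2]
    simp only [cr]
    have : 0 ≤ (NN : ℝ) * (NN - (x.1 + x.2)) := mul_nonneg hN.le (sub_nonneg.2 hx3)
    nlinarith
  · obtain ⟨ha, hb⟩ := Prod.mk.inj h
    rw [ha, hb, P2, P0]
    simp only [cr]
    have : 0 ≤ (NN : ℝ) * x.1 := mul_nonneg hN.le hx1
    nlinarith
  · -- interior edge
    obtain ⟨α, β, γ, hs⟩ := ell_aff s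
    obtain ⟨α', β', γ', ht2⟩ := ell_aff t
    have hA : ell s (P (tri t k)) - ell t (P (tri t k)) = 0 := by
      rw [← hj2, ell_vertex, hj2, ell_vertex, sub_self]
    have hB : ell s (P (tri t (k + 1))) - ell t (P (tri t (k + 1))) = 0 := by
      rw [← hj1, ell_vertex, hj1, ell_vertex, sub_self]
    have hC : ell s (P (tri t (k + 2))) - ell t (P (tri t (k + 2))) < 0 := by
      rw [ell_vertex]
      have hnot : tri t (k + 2) ∉ triS s := by
        simp only [triS, Finset.mem_insert, Finset.mem_singleton, not_or]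
        exact ⟨hc0, hc1, hc2⟩
      have := ell_lt hnot
      linarith
    have key := aff_two (fun y => ell s y - ell t y) (α - α') (β - β') (γ - γ')
      (fun y => by rw [hs y, ht2 y]; ring) (P (tri t k)) (P (tri t (k + 1))) x
      (P (tri t (k + 2))) hA hB
    have hD := area_pos' t k
    have hle := ht' s
    by_contra hneg
    push Not at hneg
    have h1 : (ell s x - ell t x) * cr (P (tri t k)) (P (tri t (k + 1))) (P (tri t (k + 2))) ≤ 0 :=
      mul_nonpos_of_nonpos_of_nonneg (by linarith) hD.le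
    have h2 : 0 < (ell s (P (tri t (k + 2))) - ell t (P (tri t (k + 2))))
        * cr (P (tri t k)) (P (tri t (k + 1))) x := mul_pos_of_neg_of_neg hC hneg
    linarith

theorem cover {x : ℝ × ℝ} (hx : x ∈ Om) :
    ∃ t : Fin 31, x ∈ convexHull ℝ ((triP t : Finset (ℝ × ℝ)) : Set (ℝ × ℝ)) := by
  obtain ⟨t, -, ht'⟩ := Finset.exists_max_image Finset.univ (fun t => ell t x) ⟨0, Finset.mem_univ _⟩
  refine ⟨t, ?_⟩
  have hmax : ∀ s, ell s x ≤ ell t x := fun s => ht' s (Finset.mem_univ s)
  have h0 := bary_nonneg hx hmax 0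
  have h1 := bary_nonneg hx hmax 1
  have h2 := bary_nonneg hx hmax 2
  have hD := area_pos t
  have e1 : (1 : Fin 3) + 1 = 2 := rfl
  have e2 : (2 : Fin 3) + 1 = 0 := rfl
  rw [zero_add] at h0
  rw [e1] at h1
  rw [e2] at h2
  set A := P (tri t 0) with hA
  set B := P (tri t 1) with hB
  set C := P (tri t 2) with hC
  have hcA : A ∈ convexHull ℝ ((triP t : Finset (ℝ × ℝ)) : Set (ℝ × ℝ)) := by
    apply subset_convexHull
    rw [coe_triP]
    exact ⟨tri t 0, by simp [triS], rfl⟩
  have hcB : B ∈ convexHull ℝ ((triP t : Finset (ℝ × ℝ)) : Set (ℝ × ℝ)) := by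
    apply subset_convexHull
    rw [coe_triP]
    exact ⟨tri t 1, by simp [triS], rfl⟩
  have hcC : C ∈ convexHull ℝ ((triP t : Finset (ℝ × ℝ)) : Set (ℝ × ℝ)) := by
    apply subset_convexHull
    rw [coe_triP]
    exact ⟨tri t 2, by simp [triS], rfl⟩
  have hx' : x = (cr B C x / cr A B C) • A + ((cr C A x / cr A B C) • B + (cr A B x / cr A B C) • C) := by
    have hD' := hD.ne'
    ext
    · simp only [Prod.fst_add, Prod.smul_fst, smul_eq_mul]
      field_simp
      simp only [cr]
      ring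
    · simp only [Prod.snd_add, Prod.smul_snd, smul_eq_mul]
      field_simp
      simp only [cr]
      ring
  have hsum : cr B C x / cr A B C + (cr C A x / cr A B C + cr A B x / cr A B C) = 1 := by
    rw [← add_div, ← add_div, div_eq_one_iff_eq hD.ne']
    simp only [cr]
    ring
  rw [hx']
  have hw0 : 0 ≤ cr B C x / cr A B C := div_nonneg h1 hD.le
  have hw1 : 0 ≤ cr C A x / cr A B C := div_nonneg h2 hD.le
  have hw2 : 0 ≤ cr A B x / cr A B C := div_nonneg h0 hD.le
  have hconv := convex_convexHull ℝ ((triP t : Finset (ℝ × ℝ)) : Set (ℝ × ℝ))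
  have := hconv.sum_mem (t := (Finset.univ : Finset (Fin 3)))
    (w := ![cr B C x / cr A B C, cr C A x / cr A B C, cr A B x / cr A B C]) (z := ![A, B, C])
    (by intro i _; fin_cases i <;> simpa)
    (by simp only [Fin.sum_univ_three, Matrix.cons_val_zero, Matrix.cons_val_one, Matrix.cons_val]
        rw [← hsum]; ring)
    (by intro i _; fin_cases i <;> simpa)
  simp only [Fin.sum_univ_three, Matrix.cons_val_zero, Matrix.cons_val_one, Matrix.cons_val] at this
  rw [← add_assoc]
  exact this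

theorem triP_inj : Function.Injective triP := by
  intro t s h
  have h' : triS t = triS s := Finset.map_injective Pe h
  apply fact_tri_inj
  intro i
  have : tri t i ∈ triS s := by rw [← h']; exact mem_triS.2 ⟨i, rfl⟩
  obtain ⟨j, hj⟩ := mem_triS.1 this
  exact ⟨j, hj.symm⟩

/-- The triangulation. -/
noncomputable def TT : Finset (Finset (ℝ × ℝ)) := Finset.univ.map ⟨triP, triP_inj⟩

theorem mem_TT {s : Finset (ℝ × ℝ)} : s ∈ TT ↔ ∃ t, triP t = s := by
  simp [TT]

theorem union_eq : Om = ⋃ t ∈ TT, convexHull ℝ (t : Set (ℝ × ℝ)) := by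
  ext x
  simp only [Set.mem_iUnion, exists_prop, mem_TT]
  constructor
  · intro hx
    obtain ⟨t, ht'⟩ := cover hx
    exact ⟨triP t, ⟨t, rfl⟩, ht'⟩
  · rintro ⟨_, ⟨t, rfl⟩, hx⟩
    exact conv_sub_Om t hx

theorem tri_ne (t : Fin 31) : tri t 0 ≠ tri t 1 ∧ tri t 0 ≠ tri t 2 ∧ tri t 1 ≠ tri t 2 := by
  have h := area_pos t
  refine ⟨fun h' => ?_, fun h' => ?_, fun h' => ?_⟩
  · rw [h', cr_self1] at h; exact lt_irrefl _ h
  · rw [h', cr_self2] at h; exact lt_irrefl _ h
  · rw [h', cr_self3] at h; exact lt_irrefl _ h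

theorem card_triP (t : Fin 31) : (triP t).card = 3 := by
  obtain ⟨h1, h2, h3⟩ := tri_ne t
  rw [triP, Finset.card_map, triS, Finset.card_eq_three]
  exact ⟨_, _, _, h1, h2, h3, rfl⟩

theorem affInd (t : Fin 31) :
    AffineIndependent ℝ (Subtype.val : ↥((triP t : Finset (ℝ × ℝ)) : Set (ℝ × ℝ)) → ℝ × ℝ) := by
  have hD := area_pos t
  have key : AffineIndependent ℝ ![P (tri t 0), P (tri t 1), P (tri t 2)] := by
    rw [affineIndependent_iff_of_fintype]
    intro w hw hw2
    rw [Finset.weightedVSub_eq_linear_combination _ hw] at hw2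
    simp only [Fin.sum_univ_three, Matrix.cons_val_zero, Matrix.cons_val_one, Matrix.cons_val] at hw hw2
    have hx := congrArg Prod.fst hw2
    have hy := congrArg Prod.snd hw2
    simp only [Prod.fst_add, Prod.snd_add, Prod.smul_fst, Prod.smul_snd, smul_eq_mul, Prod.fst_zero,
      Prod.snd_zero] at hx hy
    generalize P (tri t 0) = A at *
    generalize P (tri t 1) = B at *
    generalize P (tri t 2) = C at *
    have h1 : w 1 * cr A B C = 0 := by
      simp only [cr]
      linear_combination (C.2 - A.2) * (hx - A.1 * hw) - (C.1 - A.1) * (hy - A.2 * hw)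
    have h2 : w 2 * cr A B C = 0 := by
      simp only [cr]
      linear_combination (B.1 - A.1) * (hy - A.2 * hw) - (B.2 - A.2) * (hx - A.1 * hw)
    have h1' : w 1 = 0 := (mul_eq_zero.1 h1).resolve_right hD.ne'
    have h2' : w 2 = 0 := (mul_eq_zero.1 h2).resolve_right hD.ne'
    have h0' : w 0 = 0 := by rw [h1', h2'] at hw; linarith
    intro i
    fin_cases i
    · exact h0'
    · exact h1'
    · exact h2'
  have hr : Set.range ![P (tri t 0), P (tri t 1), P (tri t 2)] = ((triP t : Finset (ℝ × ℝ)) : Set (ℝ × ℝ)) := by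
    rw [coe_triP]
    simp [triS, Set.image_insert_eq]
    ext y
    simp only [Set.mem_insert_iff, Set.mem_singleton_iff]
    tauto
  rw [← hr]
  exact key.range

end Pool.Agent.Helper35.Spl
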