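import Mathlib

set_option autoImplicit false

namespace Pool.Agent.Helper35.Spl

/-- Integer polynomials of degree at most 3 in `u`, where `u ^ 4 = 5 * u ^ 3 - 20 * u + 25`. -/
abbrev Zu := ℤ × ℤ × ℤ × ℤ

/-- Multiplication in `ℤ[u]`. -/
def zmul (x y : Zu) : Zu :=
  let p4 := x.2.1 * y.2.2.2 + x.2.2.1 * y.2.2.1 + x.2.2.2 * y.2.1
  let p5 := x.2.2.1 * y.2.2.2 + x.2.2.2 * y.2.2.1
  let p6 := x.2.2.2 * y.2.2.2
  (x.1 * y.1 + 25 * p4 + 125 * p5 + 625 * p6,
   x.1 * y.2.1 + x.2.1 * y.1 - 20 * p4 - 75 * p5 - 375 * p6,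
   x.1 * y.2.2.1 + x.2.1 * y.2.1 + x.2.2.1 * y.1 - 20 * p5 - 75 * p6,
   x.1 * y.2.2.2 + x.2.1 * y.2.2.1 + x.2.2.1 * y.2.1 + x.2.2.2 * y.1 + 5 * p4 + 25 * p5 + 105 * p6)

/-- Numerator of the lower end of the bracket for `u` (denominator `10 ^ 15`). -/
def U0 : ℤ := 4205202481800145

def NN : ℤ := 200327355

def px : Fin 18 → Zu := ![
  (0, 0, 0, 0),
  (200327355, 0, 0, 0),
  (0, 0, 0, 0),
  (38659665, 17572575, 1405806, -702903),
  (123008025, -35145150, -2811612, 1405806),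
  (38659665, 17572575, 1405806, -702903),
  (96498340, -30922120, 13061930, -2105903),
  (7330675, 61844240, -26123860, 4211806),
  (96498340, -30922120, 13061930, -2105903),
  (72979000, -4013845, 8027690, -1459580),
  (54369355, 8027690, -16055380, 2919160),
  (72979000, -4013845, 8027690, -1459580),
  (158713460, -62904725, 6774355, 193553),
  (1935530, 61936960, -25161890, 3096848),
  (39678365, 967765, 18387535, -3290401),
  (39678365, 967765, 18387535, -3290401),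
  (1935530, 61936960, -25161890, 3096848),
  (158713460, -62904725, 6774355, 193553)]

def py : Fin 18 → Zu := ![
  (0, 0, 0, 0),
  (0, 0, 0, 0),
  (200327355, 0, 0, 0),
  (38659665, 17572575, 1405806, -702903),
  (38659665, 17572575, 1405806, -702903),
  (123008025, -35145150, -2811612, 1405806),
  (96498340, -30922120, 13061930, -2105903),
  (96498340, -30922120, 13061930, -2105903),
  (7330675, 61844240, -26123860, 4211806),
  (72979000, -4013845, 8027690, -1459580),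
  (72979000, -4013845, 8027690, -1459580),
  (54369355, 8027690, -16055380, 2919160),
  (39678365, 967765, 18387535, -3290401),
  (158713460, -62904725, 6774355, 193553),
  (1935530, 61936960, -25161890, 3096848),
  (158713460, -62904725, 6774355, 193553),
  (39678365, 967765, 18387535, -3290401),
  (1935530, 61936960, -25161890, 3096848)]

def ht : Fin 18 → ℤ := ![0, 0, 0, -51, -51, -51, -52, -52, -52, -47, -47, -47, -49, -49, -49, -49, -49, -49]

def tri : Fin 31 → Fin 3 → Fin 18 := ![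
  ![0, 1, 11],
  ![0, 10, 2],
  ![0, 17, 10],
  ![0, 11, 13],
  ![0, 13, 17],
  ![1, 2, 9],
  ![1, 9, 14],
  ![1, 15, 11],
  ![1, 14, 15],
  ![2, 16, 9],
  ![2, 10, 12],
  ![2, 12, 16],
  ![3, 8, 7],
  ![3, 7, 14],
  ![3, 16, 8],
  ![3, 9, 16],
  ![3, 14, 9],
  ![4, 6, 8],
  ![4, 17, 6],
  ![4, 8, 12],
  ![4, 10, 17],
  ![4, 12, 10],
  ![5, 6, 13],
  ![5, 7, 6],
  ![5, 15, 7],
  ![5, 13, 11],
  ![5, 11, 15],
  ![6, 7, 8],
  ![6, 17, 13],
  ![7, 15, 14],
  ![8, 16, 12]]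

/-- The interior edges: left triangle, position of the edge in it, right triangle, position in it. -/
def edge : Fin 45 → Fin 31 × Fin 3 × Fin 31 × Fin 3 := ![
  (3, 0, 0, 2),
  (4, 0, 3, 2),
  (2, 0, 4, 2),
  (1, 0, 2, 2),
  (6, 0, 5, 2),
  (8, 0, 6, 2),
  (7, 0, 8, 2),
  (0, 1, 7, 2),
  (10, 0, 1, 1),
  (11, 0, 10, 2),
  (9, 0, 11, 2),
  (5, 1, 9, 2),
  (13, 0, 12, 2),
  (16, 0, 13, 2),
  (15, 0, 16, 2),
  (14, 0, 15, 2),
  (12, 0, 14, 2),
  (17, 0, 18, 2),
  (19, 0, 17, 2),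
  (21, 0, 19, 2),
  (20, 0, 21, 2),
  (18, 0, 20, 2),
  (22, 0, 23, 2),
  (25, 0, 22, 2),
  (26, 0, 25, 2),
  (24, 0, 26, 2),
  (23, 0, 24, 2),
  (28, 0, 18, 1),
  (22, 1, 28, 2),
  (27, 0, 23, 1),
  (17, 1, 27, 2),
  (27, 1, 12, 1),
  (29, 0, 24, 1),
  (13, 1, 29, 2),
  (30, 0, 14, 1),
  (19, 1, 30, 2),
  (15, 1, 9, 1),
  (6, 1, 16, 1),
  (20, 1, 2, 1),
  (10, 1, 21, 1),
  (26, 1, 7, 1),
  (3, 1, 25, 1),
  (11, 1, 30, 1),
  (4, 1, 28, 1),
  (8, 1, 29, 1)]

/-- Coefficients of the extra dependency. -/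
def gam : Fin 45 → Zu := ![
  (-455, 247, -143, -156),
  (-5070, 2548, 1339, -494),
  (5070, -2548, -1339, 494),
  (455, -247, 143, 156),
  (-455, 247, -143, -156),
  (-5070, 2548, 1339, -494),
  (5070, -2548, -1339, 494),
  (455, -247, 143, 156),
  (-455, 247, -143, -156),
  (-5070, 2548, 1339, -494),
  (5070, -2548, -1339, 494),
  (455, -247, 143, 156),
  (755780, -214155, -171165, 46864),
  (1216215, -38350, -225355, 30602),
  (0, 0, 0, 0),
  (-1216215, 38350, 225355, -30602),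
  (-755780, 214155, 171165, -46864),
  (-755780, 214155, 171165, -46864),
  (755780, -214155, -171165, 46864),
  (1216215, -38350, -225355, 30602),
  (0, 0, 0, 0),
  (-1216215, 38350, 225355, -30602),
  (755780, -214155, -171165, 46864),
  (1216215, -38350, -225355, 30602),
  (0, 0, 0, 0),
  (-1216215, 38350, 225355, -30602),
  (-755780, 214155, 171165, -46864),
  (93895, -159495, -45450, 24098),
  (-93895, 159495, 45450, -24098),
  (0, 0, 0, 0),
  (0, 0, 0, 0),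
  (0, 0, 0, 0),
  (93895, -159495, -45450, 24098),
  (-93895, 159495, 45450, -24098),
  (93895, -159495, -45450, 24098),
  (-93895, 159495, 45450, -24098),
  (-118365, 17030, 19955, -6877),
  (118365, -17030, -19955, 6877),
  (-118365, 17030, 19955, -6877),
  (118365, -17030, -19955, 6877),
  (-118365, 17030, 19955, -6877),
  (118365, -17030, -19955, 6877),
  (0, 0, 0, 0),
  (0, 0, 0, 0),
  (0, 0, 0, 0)]

/-- Twice the signed area, exactly. -/
def zcr (a b c : Fin 18) : Zu :=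
  zmul (px b - px a) (py c - py a) - zmul (py b - py a) (px c - px a)

def zsc (n : ℤ) (x : Zu) : Zu := (n * x.1, n * x.2.1, n * x.2.2.1, n * x.2.2.2)

/-- The lifting determinant. -/
def zlift (t : Fin 31) (m : Fin 18) : Zu :=
  zsc (ht m) (zcr (tri t 0) (tri t 1) (tri t 2))
    - (zsc (ht (tri t 0)) (zcr m (tri t 1) (tri t 2))
      + zsc (ht (tri t 1)) (zcr (tri t 0) m (tri t 2))
      + zsc (ht (tri t 2)) (zcr (tri t 0) (tri t 1) m))

/-- A rigorous lower bound for `10 ^ 45` times the value. -/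
def zlb (x : Zu) : ℤ :=
  x.1 * 10 ^ 45
    + x.2.1 * (if 0 ≤ x.2.1 then U0 else U0 + 1) * 10 ^ 30
    + x.2.2.1 * (if 0 ≤ x.2.2.1 then U0 ^ 2 else (U0 + 1) ^ 2) * 10 ^ 15
    + x.2.2.2 * (if 0 ≤ x.2.2.2 then U0 ^ 3 else (U0 + 1) ^ 3)

def zpos (x : Zu) : Prop := 0 < zlb x

instance (x : Zu) : Decidable (zpos x) := inferInstanceAs (Decidable (0 < zlb x))

theorem fact_area : ∀ t : Fin 31, zpos (zcr (tri t 0) (tri t 1) (tri t 2)) := by
  decide +kernel

theorem fact_lift : ∀ t : Fin 31, ∀ m : Fin 18, m ≠ tri t 0 → m ≠ tri t 1 → m ≠ tri t 2 →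
    zpos (zlift t m) := by
  decide +kernel

theorem fact_halfedge : ∀ t : Fin 31, ∀ k : Fin 3,
    (tri t k, tri t (k + 1)) = (0, 1) ∨ (tri t k, tri t (k + 1)) = (1, 2) ∨
    (tri t k, tri t (k + 1)) = (2, 0) ∨
    ∃ s : Fin 31, ∃ j : Fin 3, tri s j = tri t (k + 1) ∧ tri s (j + 1) = tri t k ∧
      tri t (k + 2) ≠ tri s 0 ∧ tri t (k + 2) ≠ tri s 1 ∧ tri t (k + 2) ≠ tri s 2 := by
  decide +kernel

theorem fact_inj : ∀ a b : Fin 18, a < b →
    zpos (px a - px b) ∨ zpos (px b - px a) ∨ zpos (py a - py b) ∨ zpos (py b - py a) := by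
  decide +kernel

def zN : Zu := (NN, 0, 0, 0)

theorem fact_inside : ∀ v : Fin 18, 3 ≤ v → zpos (px v) ∧ zpos (py v) ∧ zpos (zN - px v - py v) := by
  decide +kernel

theorem fact_tri_inj : ∀ t s : Fin 31, (∀ i, ∃ j, tri t i = tri s j) → t = s := by
  decide +kernel

theorem fact_share : ∀ t s : Fin 31, t ≠ s → ∀ i i' : Fin 3, i ≠ i' →
    (∃ j, tri t i = tri s j) → (∃ j, tri t i' = tri s j) →
    ∃ e : Fin 45, ((edge e).1 = t ∧ (edge e).2.2.1 = s) ∨ ((edge e).1 = s ∧ (edge e).2.2.1 = t) := by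
  decide +kernel

theorem fact_edge : ∀ e : Fin 45,
    tri (edge e).1 (edge e).2.1 = tri (edge e).2.2.1 ((edge e).2.2.2 + 1) ∧
    tri (edge e).1 ((edge e).2.1 + 1) = tri (edge e).2.2.1 (edge e).2.2.2 := by
  decide +kernel

theorem fact_mid : ∀ e : Fin 45,
    zpos (px (tri (edge e).1 (edge e).2.1) + px (tri (edge e).1 ((edge e).2.1 + 1))) ∧
    zpos (py (tri (edge e).1 (edge e).2.1) + py (tri (edge e).1 ((edge e).2.1 + 1))) ∧
    zpos (zN + zN - px (tri (edge e).1 (edge e).2.1) - px (tri (edge e).1 ((edge e).2.1 + 1))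
      - py (tri (edge e).1 (edge e).2.1) - py (tri (edge e).1 ((edge e).2.1 + 1))) := by
  decide +kernel

end Pool.Agent.Helper35.Spl
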