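import Pool.Agent.Helper35.Spl.Data

set_option autoImplicit false

namespace Pool.Agent.Helper35.Spl

def eA (e : Fin 45) : Fin 18 := tri (edge e).1 (edge e).2.1
def eB (e : Fin 45) : Fin 18 := tri (edge e).1 ((edge e).2.1 + 1)
def eC (e : Fin 45) : Fin 18 := tri (edge e).1 ((edge e).2.1 + 2)
def eD (e : Fin 45) : Fin 18 := tri (edge e).2.2.1 ((edge e).2.2.2 + 2)

def k1 (e : Fin 45) : Zu := zmul (gam e) (zcr (eD e) (eB e) (eC e))
def k2 (e : Fin 45) : Zu := zmul (gam e) (zcr (eA e) (eD e) (eC e))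
def k3 (e : Fin 45) : Zu := zmul (gam e) (zcr (eB e) (eA e) (eD e))
def k4 (e : Fin 45) : Zu := zmul (gam e) (zcr (eA e) (eB e) (eC e))

theorem dep_f : ∀ v : Fin 18,
    (∑ e : Fin 45, (if eA e = v then k1 e else 0)) + (∑ e : Fin 45, (if eB e = v then k2 e else 0))
      = 0 := by
  decide +kernel

theorem dep_x : ∀ v : Fin 18,
    (∑ e : Fin 45, (if eA e = v then zmul (k1 e) (px (eB e) - px (eA e)) else 0))
      + (∑ e : Fin 45, (if eB e = v then zmul (k2 e) (px (eA e) - px (eB e)) else 0))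
      = 0 := by
  decide +kernel

theorem dep_y : ∀ v : Fin 18,
    (∑ e : Fin 45, (if eA e = v then zmul (k1 e) (py (eB e) - py (eA e)) else 0))
      + (∑ e : Fin 45, (if eB e = v then zmul (k2 e) (py (eA e) - py (eB e)) else 0))
      = 0 := by
  decide +kernel

theorem dep_b : ∀ t : Fin 31,
    (∑ e : Fin 45, (if (edge e).1 = t then k3 e else 0))
      + (∑ e : Fin 45, (if (edge e).2.2.1 = t then k4 e else 0))
      = 0 := by
  decide +kernel

theorem gam_zero_pos : zpos (-gam 0) := by decide +kernel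

end Pool.Agent.Helper35.Spl
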