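import Pool.Agent.Helper35.Spl.Data2

set_option autoImplicit false

namespace Pool.Agent.Helper35.Spl

theorem exists_u : ∃ u : ℝ, u ^ 4 = 5 * u ^ 3 - 20 * u + 25 ∧ (U0 : ℝ) / 10 ^ 15 ≤ u ∧
    u ≤ ((U0 : ℝ) + 1) / 10 ^ 15 := by
  have hc : ContinuousOn (fun u : ℝ => u ^ 4 - 5 * u ^ 3 + 20 * u - 25)
      (Set.Icc ((U0 : ℝ) / 10 ^ 15) (((U0 : ℝ) + 1) / 10 ^ 15)) := by fun_prop
  have hab : (U0 : ℝ) / 10 ^ 15 ≤ ((U0 : ℝ) + 1) / 10 ^ 15 := by
    apply div_le_div_of_nonneg_right _ (by positivity)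
    linarith
  have h := intermediate_value_Icc hab hc
  have h0 : (0 : ℝ) ∈ Set.Icc ((fun u : ℝ => u ^ 4 - 5 * u ^ 3 + 20 * u - 25) ((U0 : ℝ) / 10 ^ 15))
      ((fun u : ℝ => u ^ 4 - 5 * u ^ 3 + 20 * u - 25) (((U0 : ℝ) + 1) / 10 ^ 15)) := by
    constructor <;> norm_num [U0]
  obtain ⟨x, hx, hx'⟩ := h h0
  refine ⟨x, ?_, hx.1, hx.2⟩
  simp only at hx'
  linarith

noncomputable def u : ℝ := exists_u.choose

theorem u_eq : u ^ 4 = 5 * u ^ 3 - 20 * u + 25 := exists_u.choose_spec.1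
theorem u_lo : (U0 : ℝ) / 10 ^ 15 ≤ u := exists_u.choose_spec.2.1
theorem u_hi : u ≤ ((U0 : ℝ) + 1) / 10 ^ 15 := exists_u.choose_spec.2.2

noncomputable def ev (x : Zu) : ℝ :=
  (x.1 : ℝ) + (x.2.1 : ℝ) * u + (x.2.2.1 : ℝ) * u ^ 2 + (x.2.2.2 : ℝ) * u ^ 3

theorem ev_zero : ev 0 = 0 := by simp [ev]

theorem ev_add (x y : Zu) : ev (x + y) = ev x + ev y := by
  simp only [ev, Prod.fst_add, Prod.snd_add, Int.cast_add]; ring

theorem ev_neg (x : Zu) : ev (-x) = -ev x := by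
  simp only [ev, Prod.fst_neg, Prod.snd_neg, Int.cast_neg]; ring

theorem ev_sub (x y : Zu) : ev (x - y) = ev x - ev y := by
  simp only [ev, Prod.fst_sub, Prod.snd_sub, Int.cast_sub]; ring

theorem ev_zsc (n : ℤ) (x : Zu) : ev (zsc n x) = n * ev x := by
  simp only [ev, zsc, Int.cast_mul]; ring

theorem ev_mul (x y : Zu) : ev (zmul x y) = ev x * ev y := by
  have hu := u_eq
  obtain ⟨a, b, c, d⟩ := x
  obtain ⟨a', b', c', d'⟩ := y
  simp only [ev, zmul]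
  push_cast
  linear_combination (-((b : ℝ) * d' + c * c' + d * b')
    - ((c : ℝ) * d' + d * c') * (u + 5) - ((d : ℝ) * d') * (u ^ 2 + 5 * u + 25)) * hu

/-- `ev` as an additive hom. -/
noncomputable def evHom : Zu →+ ℝ where
  toFun := ev
  map_zero' := ev_zero
  map_add' := ev_add

theorem ev_sum {ι : Type*} (s : Finset ι) (f : ι → Zu) : ev (∑ i ∈ s, f i) = ∑ i ∈ s, ev (f i) :=
  map_sum evHom f s

theorem ev_pos {x : Zu} (h : zpos x) : 0 < ev x := by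
  have h1 := u_lo
  have h2 := u_hi
  have hM : (0 : ℝ) < 10 ^ 15 := by positivity
  have hU : (0 : ℝ) < (U0 : ℝ) := by norm_num [U0]
  rw [div_le_iff₀ hM] at h1
  rw [le_div_iff₀ hM] at h2
  set v : ℝ := u * 10 ^ 15 with hv
  have hv0 : 0 < v := lt_of_lt_of_le hU h1
  have key1 : (x.2.1 : ℝ) * ((if 0 ≤ x.2.1 then U0 else U0 + 1 : ℤ) : ℝ) ≤ x.2.1 * v := by
    split_ifs with hh
    · exact mul_le_mul_of_nonneg_left h1 (by exact_mod_cast hh)
    · apply mul_le_mul_of_nonpos_left _ (by push Not at hh; exact_mod_cast hh.le)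
      push_cast; exact h2
  have key2 : (x.2.2.1 : ℝ) * ((if 0 ≤ x.2.2.1 then U0 ^ 2 else (U0 + 1) ^ 2 : ℤ) : ℝ) ≤ x.2.2.1 * v ^ 2 := by
    split_ifs with hh
    · apply mul_le_mul_of_nonneg_left _ (by exact_mod_cast hh)
      push_cast
      exact pow_le_pow_left₀ hU.le h1 2
    · apply mul_le_mul_of_nonpos_left _ (by push Not at hh; exact_mod_cast hh.le)
      push_cast
      exact pow_le_pow_left₀ hv0.le h2 2
  have key3 : (x.2.2.2 : ℝ) * ((if 0 ≤ x.2.2.2 then U0 ^ 3 else (U0 + 1) ^ 3 : ℤ) : ℝ) ≤ x.2.2.2 * v ^ 3 := by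
    split_ifs with hh
    · apply mul_le_mul_of_nonneg_left _ (by exact_mod_cast hh)
      push_cast
      exact pow_le_pow_left₀ hU.le h1 3
    · apply mul_le_mul_of_nonpos_left _ (by push Not at hh; exact_mod_cast hh.le)
      push_cast
      exact pow_le_pow_left₀ hv0.le h2 3
  have h3 : (0 : ℝ) < (zlb x : ℝ) := by exact_mod_cast h
  have h4 : (zlb x : ℝ) ≤ 10 ^ 45 * ev x := by
    have e1 : (zlb x : ℝ) = (x.1 : ℝ) * 10 ^ 45
      + (x.2.1 : ℝ) * ((if 0 ≤ x.2.1 then U0 else U0 + 1 : ℤ) : ℝ) * 10 ^ 30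
      + (x.2.2.1 : ℝ) * ((if 0 ≤ x.2.2.1 then U0 ^ 2 else (U0 + 1) ^ 2 : ℤ) : ℝ) * 10 ^ 15
      + (x.2.2.2 : ℝ) * ((if 0 ≤ x.2.2.2 then U0 ^ 3 else (U0 + 1) ^ 3 : ℤ) : ℝ) := by
      simp only [zlb]
      push_cast
      ring
    have e2 : 10 ^ 45 * ev x = (x.1 : ℝ) * 10 ^ 45 + (x.2.1 : ℝ) * v * 10 ^ 30
      + (x.2.2.1 : ℝ) * v ^ 2 * 10 ^ 15 + (x.2.2.2 : ℝ) * v ^ 3 := by
      rw [hv]; simp only [ev]; ring
    rw [e1, e2]
    have k1 := mul_le_mul_of_nonneg_right key1 (by positivity : (0 : ℝ) ≤ 10 ^ 30)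
    have k2 := mul_le_mul_of_nonneg_right key2 (by positivity : (0 : ℝ) ≤ 10 ^ 15)
    linarith
  by_contra hc
  push Not at hc
  have : (10 : ℝ) ^ 45 * ev x ≤ 0 := mul_nonpos_of_nonneg_of_nonpos (by positivity) hc
  linarith

/-- The vertices. -/
noncomputable def P (v : Fin 18) : ℝ × ℝ := (ev (px v), ev (py v))

/-- Twice the signed area. -/
def cr (a b c : ℝ × ℝ) : ℝ := (b.1 - a.1) * (c.2 - a.2) - (b.2 - a.2) * (c.1 - a.1)

theorem ev_zcr (a b c : Fin 18) : ev (zcr a b c) = cr (P a) (P b) (P c) := by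
  simp only [zcr, ev_sub, ev_mul, cr, P]

theorem area_pos (t : Fin 31) : 0 < cr (P (tri t 0)) (P (tri t 1)) (P (tri t 2)) := by
  rw [← ev_zcr]; exact ev_pos (fact_area t)

theorem cr_rot (a b c : ℝ × ℝ) : cr b c a = cr a b c := by
  simp only [cr]; ring

theorem area_pos' (t : Fin 31) (k : Fin 3) :
    0 < cr (P (tri t k)) (P (tri t (k + 1))) (P (tri t (k + 2))) := by
  have h := area_pos t
  fin_cases k
  · exact h
  · have : cr (P (tri t 1)) (P (tri t 2)) (P (tri t 0)) = cr (P (tri t 0)) (P (tri t 1)) (P (tri t 2)) :=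
      cr_rot _ _ _
    simpa [this] using h
  · have : cr (P (tri t 2)) (P (tri t 0)) (P (tri t 1)) = cr (P (tri t 0)) (P (tri t 1)) (P (tri t 2)) := by
      rw [cr_rot, cr_rot]
    simpa [this] using h

theorem P_inj : Function.Injective P := by
  have key : ∀ a b : Fin 18, a < b → P a ≠ P b := by
    intro a b hab h
    have h1 : ev (px a) = ev (px b) := congrArg Prod.fst h
    have h2 : ev (py a) = ev (py b) := congrArg Prod.snd h
    rcases fact_inj a b hab with h | h | h | h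
    all_goals
      have := ev_pos h
      rw [ev_sub] at this
      linarith
  intro a b h
  rcases lt_trichotomy a b with hab | hab | hab
  · exact absurd h (key a b hab)
  · exact hab
  · exact absurd h.symm (key b a hab)

end Pool.Agent.Helper35.Spl
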