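import Pool.Agent.Helper35.Spl.Ev

set_option autoImplicit false

namespace Pool.Agent.Helper35.Spl

/-- Vertex index set of a triangle. -/
def triS (t : Fin 31) : Finset (Fin 18) := {tri t 0, tri t 1, tri t 2}

theorem mem_triS {t : Fin 31} {m : Fin 18} : m ∈ triS t ↔ ∃ k, tri t k = m := by
  simp only [triS, Finset.mem_insert, Finset.mem_singleton]
  constructor
  · rintro (h | h | h)
    · exact ⟨0, h.symm⟩
    · exact ⟨1, h.symm⟩
    · exact ⟨2, h.symm⟩
  · rintro ⟨k, rfl⟩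
    fin_cases k <;> simp

/-- The vertex embedding. -/
noncomputable def Pe : Fin 18 ↪ ℝ × ℝ := ⟨P, P_inj⟩

/-- A triangle as a set of points. -/
noncomputable def triP (t : Fin 31) : Finset (ℝ × ℝ) := (triS t).map Pe

theorem coe_triP (t : Fin 31) : ((triP t : Finset (ℝ × ℝ)) : Set (ℝ × ℝ)) = P '' (triS t : Set (Fin 18)) := by
  simp [triP, Pe]

theorem conv_iff (S : Finset (Fin 18)) (x : ℝ × ℝ) :
    x ∈ convexHull ℝ (P '' (S : Set (Fin 18))) ↔ ∃ w : Fin 18 → ℝ, (∀ v, 0 ≤ w v) ∧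
      (∀ v, v ∉ S → w v = 0) ∧ ∑ v, w v = 1 ∧ ∑ v, w v • P v = x := by
  constructor
  · intro h
    have e : P '' (S : Set (Fin 18)) = ((S.map Pe : Finset (ℝ × ℝ)) : Set (ℝ × ℝ)) := by
      simp [Pe]
    rw [e, Finset.mem_convexHull'] at h
    obtain ⟨w, h0, h1, h2⟩ := h
    rw [Finset.sum_map] at h1 h2
    refine ⟨fun v => if v ∈ S then w (P v) else 0, ?_, ?_, ?_, ?_⟩
    · intro v
      dsimp only
      split_ifs with hv
      · exact h0 _ (Finset.mem_map_of_mem Pe hv)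
      · exact le_rfl
    · intro v hv
      simp [hv]
    · rw [Finset.sum_ite_mem, Finset.univ_inter]
      exact h1
    · simp only [ite_smul, zero_smul]
      rw [Finset.sum_ite_mem, Finset.univ_inter]
      exact h2
  · rintro ⟨w, h0, hS, h1, h2⟩
    have e1 : ∑ v ∈ S, w v = 1 := by
      rw [← h1]
      apply Finset.sum_subset (Finset.subset_univ _)
      intro v _ hv
      exact hS v hv
    have e2 : ∑ v ∈ S, w v • P v = x := by
      rw [← h2]
      apply Finset.sum_subset (Finset.subset_univ _)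
      intro v _ hv
      rw [hS v hv, zero_smul]
    rw [← e2]
    apply (convex_convexHull ℝ _).sum_mem (fun i _ => h0 i) e1
    intro i hi
    exact subset_convexHull ℝ _ ⟨i, hi, rfl⟩

theorem aff_sum (α β γ : ℝ) (w : Fin 18 → ℝ) (x : ℝ × ℝ) (h1 : ∑ v, w v = 1)
    (h2 : ∑ v, w v • P v = x) :
    α + β * x.1 + γ * x.2 = ∑ v, w v * (α + β * (P v).1 + γ * (P v).2) := by
  have hx1 : x.1 = ∑ v, w v * (P v).1 := by
    rw [← h2, Prod.fst_sum]; simp
  have hx2 : x.2 = ∑ v, w v * (P v).2 := by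
    rw [← h2, Prod.snd_sum]; simp
  have : ∑ v, w v * (α + β * (P v).1 + γ * (P v).2)
      = (∑ v, w v) * α + β * (∑ v, w v * (P v).1) + γ * (∑ v, w v * (P v).2) := by
    rw [Finset.sum_mul, Finset.mul_sum, Finset.mul_sum, ← Finset.sum_add_distrib,
      ← Finset.sum_add_distrib]
    apply Finset.sum_congr rfl
    intro v _
    ring
  rw [this, h1, ← hx1, ← hx2]
  ring

/-- The affine function interpolating the heights on the triangle `t`. -/
noncomputable def ell (t : Fin 31) (x : ℝ × ℝ) : ℝ :=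
  ((ht (tri t 0) : ℝ) * cr x (P (tri t 1)) (P (tri t 2))
    + (ht (tri t 1) : ℝ) * cr (P (tri t 0)) x (P (tri t 2))
    + (ht (tri t 2) : ℝ) * cr (P (tri t 0)) (P (tri t 1)) x)
    / cr (P (tri t 0)) (P (tri t 1)) (P (tri t 2))

theorem ell_aff (t : Fin 31) : ∃ α β γ : ℝ, ∀ x, ell t x = α + β * x.1 + γ * x.2 := by
  have hD := (area_pos t).ne'
  refine ⟨ell t (0, 0), ell t (1, 0) - ell t (0, 0), ell t (0, 1) - ell t (0, 0), ?_⟩
  intro x
  simp only [ell]
  rw [div_sub_div_same, div_sub_div_same, div_mul_eq_mul_div, div_mul_eq_mul_div, ← add_div,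
    ← add_div]
  congr 1
  simp only [cr]
  ring

theorem cr_self1 (a b : ℝ × ℝ) : cr a a b = 0 := by simp only [cr]; ring
theorem cr_self2 (a b : ℝ × ℝ) : cr a b a = 0 := by simp only [cr]; ring
theorem cr_self3 (a b : ℝ × ℝ) : cr b a a = 0 := by simp only [cr]; ring

theorem ell_vertex (t : Fin 31) (k : Fin 3) : ell t (P (tri t k)) = ht (tri t k) := by
  have hD := (area_pos t).ne'
  rw [ell, div_eq_iff hD]
  fin_cases k
  · simp [cr_self1, cr_self2]
  · simp [cr_self1, cr_self3]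
  · simp [cr_self2, cr_self3]

theorem ell_mem {t : Fin 31} {m : Fin 18} (hm : m ∈ triS t) : ell t (P m) = ht m := by
  obtain ⟨k, rfl⟩ := mem_triS.1 hm
  exact ell_vertex t k

theorem ell_lt {t : Fin 31} {m : Fin 18} (hm : m ∉ triS t) : ell t (P m) < ht m := by
  have hD := area_pos t
  rw [ell, div_lt_iff₀ hD]
  have h0 : m ≠ tri t 0 := fun h => hm (mem_triS.2 ⟨0, h.symm⟩)
  have h1 : m ≠ tri t 1 := fun h => hm (mem_triS.2 ⟨1, h.symm⟩)
  have h2 : m ≠ tri t 2 := fun h => hm (mem_triS.2 ⟨2, h.symm⟩)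
  have := ev_pos (fact_lift t m h0 h1 h2)
  simp only [zlift, ev_sub, ev_add, ev_zsc, ev_zcr] at this
  linarith

theorem ell_le (t : Fin 31) (m : Fin 18) : ell t (P m) ≤ ht m := by
  by_cases hm : m ∈ triS t
  · exact (ell_mem hm).le
  · exact (ell_lt hm).le

theorem ell_supp {t : Fin 31} {w : Fin 18 → ℝ} {x : ℝ × ℝ} (hS : ∀ v, v ∉ triS t → w v = 0)
    (h1 : ∑ v, w v = 1) (h2 : ∑ v, w v • P v = x) : ell t x = ∑ v, w v * ht v := by
  obtain ⟨α, β, γ, h⟩ := ell_aff t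
  rw [h x, aff_sum α β γ w x h1 h2]
  apply Finset.sum_congr rfl
  intro v _
  by_cases hv : v ∈ triS t
  · rw [← h (P v), ell_mem hv]
  · rw [hS v hv]; ring

theorem ell_gen (t : Fin 31) {w : Fin 18 → ℝ} {x : ℝ × ℝ}
    (h1 : ∑ v, w v = 1) (h2 : ∑ v, w v • P v = x) : ell t x = ∑ v, w v * ell t (P v) := by
  obtain ⟨α, β, γ, h⟩ := ell_aff t
  rw [h x, aff_sum α β γ w x h1 h2]
  apply Finset.sum_congr rfl
  intro v _
  rw [h (P v)]

theorem coe_inter (t s : Fin 31) : ((triP t : Finset (ℝ × ℝ)) : Set (ℝ × ℝ)) ∩ (triP s : Set (ℝ × ℝ))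
    = P '' ((triS t ∩ triS s : Finset (Fin 18)) : Set (Fin 18)) := by
  rw [coe_triP, coe_triP, ← Set.image_inter P_inj, Finset.coe_inter]

/-- Common points of two triangles: a weight supported on the common vertices. -/
theorem conv_common (t s : Fin 31) (x : ℝ × ℝ) (hx : x ∈ convexHull ℝ ((triP t : Finset (ℝ × ℝ)) : Set (ℝ × ℝ)))
    (hx' : x ∈ convexHull ℝ ((triP s : Finset (ℝ × ℝ)) : Set (ℝ × ℝ))) :
    x ∈ convexHull ℝ (P '' ((triS t ∩ triS s : Finset (Fin 18)) : Set (Fin 18))) := by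
  rw [coe_triP, conv_iff] at hx hx'
  obtain ⟨w, w0, wS, w1, w2⟩ := hx
  obtain ⟨z, z0, zS, z1, z2⟩ := hx'
  have a1 : ell t x = ∑ v, w v * ht v := ell_supp wS w1 w2
  have a2 : ell s x = ∑ v, z v * ht v := ell_supp zS z1 z2
  have a3 : ell t x = ∑ v, z v * ell t (P v) := ell_gen t z1 z2
  have a4 : ell s x = ∑ v, w v * ell s (P v) := ell_gen s w1 w2
  have b1 : ell s x ≤ ell t x := by
    rw [a4, a1]
    exact Finset.sum_le_sum fun v _ => mul_le_mul_of_nonneg_left (ell_le s v) (w0 v)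
  have b2 : ∑ v, z v * (ht v - ell t (P v)) ≤ 0 := by
    have : ∑ v, z v * (ht v - ell t (P v)) = ell s x - ell t x := by
      rw [a2, a3, ← Finset.sum_sub_distrib]
      apply Finset.sum_congr rfl
      intro v _
      ring
    linarith
  have b3 : ∀ v ∈ Finset.univ, 0 ≤ z v * (ht v - ell t (P v)) := fun v _ =>
    mul_nonneg (z0 v) (sub_nonneg.2 (ell_le t v))
  have b4 : ∑ v, z v * (ht v - ell t (P v)) = 0 := le_antisymm b2 (Finset.sum_nonneg b3)
  have b5 := (Finset.sum_eq_zero_iff_of_nonneg b3).1 b4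
  rw [conv_iff]
  refine ⟨z, z0, ?_, z1, z2⟩
  intro v hv
  by_cases hs : v ∈ triS s
  · have ht' : v ∉ triS t := fun h => hv (Finset.mem_inter.2 ⟨h, hs⟩)
    have := b5 v (Finset.mem_univ v)
    rcases mul_eq_zero.1 this with h | h
    · exact h
    · exact absurd h (sub_pos.2 (ell_lt ht')).ne'
  · exact zS v hs

theorem conv_inter (t s : Fin 31) :
    convexHull ℝ ((triP t : Finset (ℝ × ℝ)) : Set (ℝ × ℝ)) ∩ convexHull ℝ ((triP s : Finset (ℝ × ℝ)) : Set (ℝ × ℝ))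
      = convexHull ℝ (((triP t : Finset (ℝ × ℝ)) : Set (ℝ × ℝ)) ∩ (triP s : Set (ℝ × ℝ))) := by
  apply Set.Subset.antisymm
  · rintro x ⟨hx, hx'⟩
    rw [coe_inter]
    exact conv_common t s x hx hx'
  · apply Set.subset_inter
    · exact convexHull_mono Set.inter_subset_left
    · exact convexHull_mono Set.inter_subset_right

/-- The domain. -/
def Om : Set (ℝ × ℝ) := {x | 0 ≤ x.1 ∧ 0 ≤ x.2 ∧ x.1 + x.2 ≤ (NN : ℝ)}

theorem NN_pos : (0 : ℝ) < (NN : ℝ) := by norm_num [NN]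

theorem P0 : P 0 = (0, 0) := by simp [P, ev, px, py]
theorem P1 : P 1 = ((NN : ℝ), 0) := by simp [P, ev, px, py, NN]
theorem P2 : P 2 = (0, (NN : ℝ)) := by simp [P, ev, px, py, NN]

theorem P_inside {v : Fin 18} (hv : 3 ≤ v) : 0 < (P v).1 ∧ 0 < (P v).2 ∧ (P v).1 + (P v).2 < NN := by
  obtain ⟨h1, h2, h3⟩ := fact_inside v hv
  have h1 := ev_pos h1
  have h2 := ev_pos h2
  have h3 := ev_pos h3
  rw [ev_sub, ev_sub] at h3
  have : ev zN = NN := by simp [ev, zN]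
  rw [this] at h3
  refine ⟨h1, h2, ?_⟩
  show ev (px v) + ev (py v) < NN
  linarith

theorem lt3 {v : Fin 18} (hv : ¬ 3 ≤ v) : v = 0 ∨ v = 1 ∨ v = 2 := by
  revert v; decide

theorem P_Om (v : Fin 18) : P v ∈ Om := by
  by_cases hv : 3 ≤ v
  · obtain ⟨h1, h2, h3⟩ := P_inside hv
    exact ⟨h1.le, h2.le, h3.le⟩
  · rcases lt3 hv with rfl | rfl | rfl
    · rw [P0]; simp [Om, NN]
    · rw [P1]; simp [Om, NN]
    · rw [P2]; simp [Om, NN]

theorem Om_convex : Convex ℝ Om := by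
  have h1 : Convex ℝ {x : ℝ × ℝ | 0 ≤ x.1} := by
    exact convex_halfSpace_ge (f := fun x : ℝ × ℝ => x.1) ⟨fun _ _ => rfl, fun _ _ => rfl⟩ 0
  have h2 : Convex ℝ {x : ℝ × ℝ | 0 ≤ x.2} := by
    exact convex_halfSpace_ge (f := fun x : ℝ × ℝ => x.2) ⟨fun _ _ => rfl, fun _ _ => rfl⟩ 0
  have h3 : Convex ℝ {x : ℝ × ℝ | x.1 + x.2 ≤ NN} := by
    refine convex_halfSpace_le (f := fun x : ℝ × ℝ => x.1 + x.2) ⟨fun x y => ?_, fun c x => ?_⟩ _
    · simp only [Prod.fst_add, Prod.snd_add]; ring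
    · simp only [Prod.smul_fst, Prod.smul_snd, smul_eq_mul]; ring
  exact h1.inter (h2.inter h3)

theorem conv_sub_Om (t : Fin 31) : convexHull ℝ ((triP t : Finset (ℝ × ℝ)) : Set (ℝ × ℝ)) ⊆ Om := by
  apply convexHull_min _ Om_convex
  rw [coe_triP]
  rintro _ ⟨v, _, rfl⟩
  exact P_Om v

theorem aff_two (f : ℝ × ℝ → ℝ) (α β γ : ℝ) (hf : ∀ x, f x = α + β * x.1 + γ * x.2) (A B x y : ℝ × ℝ)
    (hA : f A = 0) (hB : f B = 0) : f x * cr A B y = f y * cr A B x := by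
  rw [hf] at hA hB
  rw [hf, hf]
  simp only [cr]
  linear_combination ((B.1 - A.1) * (y.2 - x.2) - (B.2 - A.2) * (y.1 - x.1)) * hA
    + ((x.1 - A.1) * (y.2 - A.2) - (y.1 - A.1) * (x.2 - A.2)) * (hB - hA)

end Pool.Agent.Helper35.Spl
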