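import Pool.Agent.Helper35.Spl.Count

set_option autoImplicit false

namespace Pool.Agent.Helper35.Spl

open MvPolynomial

/-- The affine polynomial `x ↦ cr x B C / D`. -/
noncomputable def lamP (B E : ℝ × ℝ) (D : ℝ) : MvPolynomial (Fin 2) ℝ :=
  C ((B.1 * E.2 - B.2 * E.1) / D) + C ((B.2 - E.2) / D) * X 0 + C ((E.1 - B.1) / D) * X 1

/-- Partial derivatives of `cr x B C`. -/
def dcr (B E : ℝ × ℝ) (i : Fin 2) : ℝ := if i = 0 then B.2 - E.2 else E.1 - B.1

theorem eval_lamP (B E : ℝ × ℝ) (D : ℝ) (x : ℝ × ℝ) :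
    eval ![x.1, x.2] (lamP B E D) = cr x B E / D := by
  simp only [lamP, map_add, map_mul, eval_C, eval_X, Matrix.cons_val_zero, Matrix.cons_val_one, cr]
  ring

theorem pderiv_lamP (B E : ℝ × ℝ) (D : ℝ) (i : Fin 2) :
    pderiv i (lamP B E D) = C (dcr B E i / D) := by
  fin_cases i
  · simp [lamP, dcr]
  · simp [lamP, dcr]

/-- Nodal data at a vertex: value and one third of the gradient. -/
abbrev ND := ℝ × ℝ × ℝ

/-- Bézier coefficient. -/
def bz (A B : ℝ × ℝ) (z : ND) : ℝ := z.1 + z.2.1 * (B.1 - A.1) + z.2.2 * (B.2 - A.2)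

/-- The cubic with given nodal data. -/
noncomputable def qP (A B E : ℝ × ℝ) (za zb ze : ND) (β : ℝ) : MvPolynomial (Fin 2) ℝ :=
  C za.1 * lamP B E (cr A B E) ^ 3 + C zb.1 * lamP E A (cr A B E) ^ 3
    + C ze.1 * lamP A B (cr A B E) ^ 3
    + C (3 * bz A B za) * (lamP B E (cr A B E) ^ 2 * lamP E A (cr A B E))
    + C (3 * bz A E za) * (lamP B E (cr A B E) ^ 2 * lamP A B (cr A B E))
    + C (3 * bz B A zb) * (lamP E A (cr A B E) ^ 2 * lamP B E (cr A B E))
    + C (3 * bz B E zb) * (lamP E A (cr A B E) ^ 2 * lamP A B (cr A B E))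
    + C (3 * bz E A ze) * (lamP A B (cr A B E) ^ 2 * lamP B E (cr A B E))
    + C (3 * bz E B ze) * (lamP A B (cr A B E) ^ 2 * lamP E A (cr A B E))
    + C (6 * β) * (lamP B E (cr A B E) * lamP E A (cr A B E) * lamP A B (cr A B E))

theorem qP_rot (A B E : ℝ × ℝ) (za zb ze : ND) (β : ℝ) :
    qP B E A zb ze za β = qP A B E za zb ze β := by
  have h : cr B E A = cr A B E := cr_rot A B E
  simp only [qP, h]
  ring

theorem lamP_deg (B E : ℝ × ℝ) (D : ℝ) : (lamP B E D).totalDegree ≤ 1 := by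
  unfold lamP
  refine (totalDegree_add _ _).trans (max_le ((totalDegree_add _ _).trans (max_le ?_ ?_)) ?_)
  · simp
  · refine (totalDegree_mul _ _).trans ?_
    simp
  · refine (totalDegree_mul _ _).trans ?_
    simp

theorem td_mul {p q : MvPolynomial (Fin 2) ℝ} {m n k : ℕ} (hp : p.totalDegree ≤ m)
    (hq : q.totalDegree ≤ n) (h : m + n ≤ k) : (p * q).totalDegree ≤ k :=
  (totalDegree_mul _ _).trans ((add_le_add hp hq).trans h)

theorem td_add {p q : MvPolynomial (Fin 2) ℝ} {k : ℕ} (hp : p.totalDegree ≤ k)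
    (hq : q.totalDegree ≤ k) : (p + q).totalDegree ≤ k :=
  (totalDegree_add _ _).trans (max_le hp hq)

theorem td_pow {p : MvPolynomial (Fin 2) ℝ} (n : ℕ) (hp : p.totalDegree ≤ 1) :
    (p ^ n).totalDegree ≤ n :=
  (totalDegree_pow _ _).trans (by nlinarith)

theorem td_C (c : ℝ) : (C c : MvPolynomial (Fin 2) ℝ).totalDegree ≤ 0 := by simp

theorem td3 (c : ℝ) {p : MvPolynomial (Fin 2) ℝ} (hp : p.totalDegree ≤ 1) :
    (C c * p ^ 3 : MvPolynomial (Fin 2) ℝ).totalDegree ≤ 3 :=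
  td_mul (td_C c) (td_pow 3 hp) (by norm_num)

theorem td21 (c : ℝ) {p q : MvPolynomial (Fin 2) ℝ} (hp : p.totalDegree ≤ 1)
    (hq : q.totalDegree ≤ 1) : (C c * (p ^ 2 * q) : MvPolynomial (Fin 2) ℝ).totalDegree ≤ 3 :=
  td_mul (td_C c) (td_mul (k := 3) (td_pow 2 hp) hq (by norm_num)) (by norm_num)

theorem td111 (c : ℝ) {p q r : MvPolynomial (Fin 2) ℝ} (hp : p.totalDegree ≤ 1)
    (hq : q.totalDegree ≤ 1) (hr : r.totalDegree ≤ 1) :
    (C c * (p * q * r) : MvPolynomial (Fin 2) ℝ).totalDegree ≤ 3 :=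
  td_mul (td_C c) (td_mul (k := 3) (td_mul (k := 2) hp hq (by norm_num)) hr (by norm_num)) (by norm_num)

theorem qP_deg (A B E : ℝ × ℝ) (za zb ze : ND) (β : ℝ) : (qP A B E za zb ze β).totalDegree ≤ 3 := by
  unfold qP
  have h1 := lamP_deg B E (cr A B E)
  have h2 := lamP_deg E A (cr A B E)
  have h3 := lamP_deg A B (cr A B E)
  exact td_add (td_add (td_add (td_add (td_add (td_add (td_add (td_add (td_add (td3 _ h1) (td3 _ h2))
    (td3 _ h3)) (td21 _ h1 h2)) (td21 _ h1 h3)) (td21 _ h2 h1)) (td21 _ h2 h3)) (td21 _ h3 h1))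
    (td21 _ h3 h2)) (td111 _ h1 h2 h3)

/-- The value of the cubic in terms of barycentric coordinates. -/
theorem eval_qP (A B E : ℝ × ℝ) (za zb ze : ND) (β : ℝ) (x : ℝ × ℝ) :
    eval ![x.1, x.2] (qP A B E za zb ze β) =
      za.1 * (cr x B E / cr A B E) ^ 3 + zb.1 * (cr x E A / cr A B E) ^ 3
    + ze.1 * (cr x A B / cr A B E) ^ 3
    + (3 * bz A B za) * ((cr x B E / cr A B E) ^ 2 * (cr x E A / cr A B E))
    + (3 * bz A E za) * ((cr x B E / cr A B E) ^ 2 * (cr x A B / cr A B E))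
    + (3 * bz B A zb) * ((cr x E A / cr A B E) ^ 2 * (cr x B E / cr A B E))
    + (3 * bz B E zb) * ((cr x E A / cr A B E) ^ 2 * (cr x A B / cr A B E))
    + (3 * bz E A ze) * ((cr x A B / cr A B E) ^ 2 * (cr x B E / cr A B E))
    + (3 * bz E B ze) * ((cr x A B / cr A B E) ^ 2 * (cr x E A / cr A B E))
    + (6 * β) * ((cr x B E / cr A B E) * (cr x E A / cr A B E) * (cr x A B / cr A B E)) := by
  simp only [qP, map_add, map_mul, map_pow, eval_C, eval_lamP]

/-- The derivative of the cubic. -/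
theorem eval_pderiv_qP (A B E : ℝ × ℝ) (za zb ze : ND) (β : ℝ) (x : ℝ × ℝ) (i : Fin 2) :
    eval ![x.1, x.2] (pderiv i (qP A B E za zb ze β)) =
      za.1 * (3 * (cr x B E / cr A B E) ^ 2 * (dcr B E i / cr A B E))
    + zb.1 * (3 * (cr x E A / cr A B E) ^ 2 * (dcr E A i / cr A B E))
    + ze.1 * (3 * (cr x A B / cr A B E) ^ 2 * (dcr A B i / cr A B E))
    + (3 * bz A B za) * (2 * (cr x B E / cr A B E) * (dcr B E i / cr A B E) * (cr x E A / cr A B E)
        + (cr x B E / cr A B E) ^ 2 * (dcr E A i / cr A B E))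
    + (3 * bz A E za) * (2 * (cr x B E / cr A B E) * (dcr B E i / cr A B E) * (cr x A B / cr A B E)
        + (cr x B E / cr A B E) ^ 2 * (dcr A B i / cr A B E))
    + (3 * bz B A zb) * (2 * (cr x E A / cr A B E) * (dcr E A i / cr A B E) * (cr x B E / cr A B E)
        + (cr x E A / cr A B E) ^ 2 * (dcr B E i / cr A B E))
    + (3 * bz B E zb) * (2 * (cr x E A / cr A B E) * (dcr E A i / cr A B E) * (cr x A B / cr A B E)
        + (cr x E A / cr A B E) ^ 2 * (dcr A B i / cr A B E))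
    + (3 * bz E A ze) * (2 * (cr x A B / cr A B E) * (dcr A B i / cr A B E) * (cr x B E / cr A B E)
        + (cr x A B / cr A B E) ^ 2 * (dcr B E i / cr A B E))
    + (3 * bz E B ze) * (2 * (cr x A B / cr A B E) * (dcr A B i / cr A B E) * (cr x E A / cr A B E)
        + (cr x A B / cr A B E) ^ 2 * (dcr E A i / cr A B E))
    + (6 * β) * ((dcr B E i / cr A B E) * (cr x E A / cr A B E) * (cr x A B / cr A B E)
        + (cr x B E / cr A B E) * (dcr E A i / cr A B E) * (cr x A B / cr A B E)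
        + (cr x B E / cr A B E) * (cr x E A / cr A B E) * (dcr A B i / cr A B E)) := by
  simp only [qP, map_add, pderiv_mul, pderiv_pow, pderiv_C, pderiv_lamP, map_mul, map_pow, eval_C,
    eval_lamP, zero_mul, zero_add, map_zero, map_natCast]
  push_cast
  ring

end Pool.Agent.Helper35.Spl
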