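import Pool.Agent.Helper35.Spl.Poly

set_option autoImplicit false

namespace Pool.Agent.Helper35.Spl

open MvPolynomial

/-- Gradient component of nodal data. -/
def gd (z : ND) (i : Fin 2) : ℝ := if i = 0 then z.2.1 else z.2.2

theorem val_vertex {A B E : ℝ × ℝ} (hD : cr A B E ≠ 0) (za zb ze : ND) (β : ℝ) :
    eval ![A.1, A.2] (qP A B E za zb ze β) = za.1 := by
  rw [eval_qP, div_self hD, cr_self2 A E, cr_self1 A B]
  ring

/-- Gradient identity at the vertex `A`. -/
theorem grad_A {A B E : ℝ × ℝ} (hD : cr A B E ≠ 0) (za : ND) (i : Fin 2) :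
    za.1 * (dcr B E i / cr A B E) + bz A B za * (dcr E A i / cr A B E)
      + bz A E za * (dcr A B i / cr A B E) = gd za i := by
  field_simp
  fin_cases i
  · simp only [dcr, bz, gd, cr, Fin.zero_eta, if_true]
    ring
  · simp only [dcr, bz, gd, cr, Fin.mk_one, one_ne_zero, if_false]
    ring

theorem grad_vertex {A B E : ℝ × ℝ} (hD : cr A B E ≠ 0) (za zb ze : ND) (β : ℝ) (i : Fin 2) :
    eval ![A.1, A.2] (pderiv i (qP A B E za zb ze β)) = 3 * gd za i := by
  rw [eval_pderiv_qP, div_self hD, cr_self2 A E, cr_self1 A B, ← grad_A (B := B) (E := E) hD za i]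
  ring

theorem cr_lin1 {A B E : ℝ × ℝ} {μ ν : ℝ} (h : μ + ν = 1) :
    cr (μ • A + ν • B) B E = μ * cr A B E := by
  have : ν = 1 - μ := by linarith
  subst this
  simp only [cr, Prod.fst_add, Prod.snd_add, Prod.smul_fst, Prod.smul_snd, smul_eq_mul]
  ring

theorem cr_lin2 {A B E : ℝ × ℝ} {μ ν : ℝ} (h : μ + ν = 1) :
    cr (μ • A + ν • B) E A = ν * cr A B E := by
  have : ν = 1 - μ := by linarith
  subst this
  simp only [cr, Prod.fst_add, Prod.snd_add, Prod.smul_fst, Prod.smul_snd, smul_eq_mul]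
  ring

theorem cr_lin3 {A B : ℝ × ℝ} {μ ν : ℝ} (h : μ + ν = 1) :
    cr (μ • A + ν • B) A B = 0 := by
  have : ν = 1 - μ := by linarith
  subst this
  simp only [cr, Prod.fst_add, Prod.snd_add, Prod.smul_fst, Prod.smul_snd, smul_eq_mul]
  ring

theorem val_edge {A B E : ℝ × ℝ} (hD : cr A B E ≠ 0) (za zb ze : ND) (β : ℝ) {μ ν : ℝ}
    (h : μ + ν = 1) :
    eval ![(μ • A + ν • B).1, (μ • A + ν • B).2] (qP A B E za zb ze β)
      = za.1 * μ ^ 3 + zb.1 * ν ^ 3 + 3 * bz A B za * (μ ^ 2 * ν) + 3 * bz B A zb * (ν ^ 2 * μ) := by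
  rw [eval_qP, cr_lin1 h, cr_lin2 h, cr_lin3 h, mul_div_cancel_right₀ _ hD, mul_div_cancel_right₀ _ hD]
  ring

theorem grad_edge {A B E : ℝ × ℝ} (hD : cr A B E ≠ 0) (za zb ze : ND) (β : ℝ) {μ ν : ℝ}
    (h : μ + ν = 1) (i : Fin 2) :
    eval ![(μ • A + ν • B).1, (μ • A + ν • B).2] (pderiv i (qP A B E za zb ze β))
      = 3 * (μ ^ 2 * gd za i + ν ^ 2 * gd zb i
        + 2 * μ * ν * (bz A B za * (dcr B E i / cr A B E) + bz B A zb * (dcr E A i / cr A B E)
          + β * (dcr A B i / cr A B E))) := by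
  have hD2 : cr B E A ≠ 0 := by rw [cr_rot]; exact hD
  have h1 := grad_A (B := B) (E := E) hD za i
  have h2 := grad_A (B := E) (E := A) hD2 zb i
  rw [cr_rot] at h2
  rw [eval_pderiv_qP, cr_lin1 h, cr_lin2 h, cr_lin3 h, mul_div_cancel_right₀ _ hD,
    mul_div_cancel_right₀ _ hD, ← h1, ← h2]
  ring

/-- The smoothness functional across the edge `AB` between `ABE` and `BAF`. -/
def cond (A B E F : ℝ × ℝ) (za zb : ND) (β β' : ℝ) : ℝ :=
  cr F B E * bz A B za + cr A F E * bz B A zb - cr B A F * β - cr A B E * β'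

theorem grad_match {A B E F : ℝ × ℝ} (hD : cr A B E ≠ 0) (hD' : cr B A F ≠ 0) (za zb : ND)
    (β β' : ℝ) (hc : cond A B E F za zb β β' = 0) (i : Fin 2) :
    bz A B za * (dcr B E i / cr A B E) + bz B A zb * (dcr E A i / cr A B E)
          + β * (dcr A B i / cr A B E)
    = bz B A zb * (dcr A F i / cr B A F) + bz A B za * (dcr F B i / cr B A F)
          + β' * (dcr B A i / cr B A F) := by
  have key : ∀ p q : ℝ, cr F B E * p + cr A F E * q - cr B A F * β - cr A B E * β' = 0 →
      (p * dcr B E i + q * dcr E A i + β * dcr A B i) * cr B A F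
        = (q * dcr A F i + p * dcr F B i + β' * dcr B A i) * cr A B E := by
    intro p q h
    fin_cases i
    · simp only [dcr, cr, Fin.zero_eta, if_true] at h ⊢
      linear_combination (B.2 - A.2) * h
    · simp only [dcr, cr, Fin.mk_one, one_ne_zero, if_false] at h ⊢
      linear_combination (A.1 - B.1) * h
  have h := key (bz A B za) (bz B A zb) hc
  have e1 : bz A B za * (dcr B E i / cr A B E) + bz B A zb * (dcr E A i / cr A B E)
          + β * (dcr A B i / cr A B E)
      = (bz A B za * dcr B E i + bz B A zb * dcr E A i + β * dcr A B i) / cr A B E := by ring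
  have e2 : bz B A zb * (dcr A F i / cr B A F) + bz A B za * (dcr F B i / cr B A F)
          + β' * (dcr B A i / cr B A F)
      = (bz B A zb * dcr A F i + bz A B za * dcr F B i + β' * dcr B A i) / cr B A F := by ring
  rw [e1, e2, div_eq_div_iff hD hD']
  exact h

/-- `C¹` matching across an edge. -/
theorem match_edge {A B E F : ℝ × ℝ} (hD : cr A B E ≠ 0) (hD' : cr B A F ≠ 0) (za zb ze zf : ND)
    (β β' : ℝ) (hc : cond A B E F za zb β β' = 0) {μ ν : ℝ} (h : μ + ν = 1) :
    eval ![(μ • A + ν • B).1, (μ • A + ν • B).2] (qP A B E za zb ze β)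
      = eval ![(μ • A + ν • B).1, (μ • A + ν • B).2] (qP B A F zb za zf β') ∧
    ∀ i : Fin 2, eval ![(μ • A + ν • B).1, (μ • A + ν • B).2] (pderiv i (qP A B E za zb ze β))
      = eval ![(μ • A + ν • B).1, (μ • A + ν • B).2] (pderiv i (qP B A F zb za zf β')) := by
  have hswap : μ • A + ν • B = ν • B + μ • A := add_comm _ _
  have h' : ν + μ = 1 := by rw [add_comm]; exact h
  constructor
  · rw [val_edge hD za zb ze β h, hswap, val_edge hD' zb za zf β' h']
    ring
  · intro i
    rw [grad_edge hD za zb ze β h i, hswap, grad_edge hD' zb za zf β' h' i,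
      grad_match hD hD' za zb β β' hc i]
    ring

end Pool.Agent.Helper35.Spl
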