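import Pool.Agent.Helper35.Spl.Cover

set_option autoImplicit false

namespace Pool.Agent.Helper35.Spl

theorem interior_Om : interior Om = {x | 0 < x.1 ∧ 0 < x.2 ∧ x.1 + x.2 < (NN : ℝ)} := by
  let f : ℝ × ℝ →L[ℝ] ℝ := ContinuousLinearMap.fst ℝ ℝ ℝ + ContinuousLinearMap.snd ℝ ℝ ℝ
  have hf : IsOpenMap f := by
    apply f.isOpenMap
    intro y
    exact ⟨(y, 0), by simp [f]⟩
  have e : Om = (Prod.fst ⁻¹' Set.Ici 0) ∩ ((Prod.snd ⁻¹' Set.Ici 0) ∩ (f ⁻¹' Set.Iic (NN : ℝ))) := by
    ext x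
    simp [Om, f]
  rw [e, interior_inter, interior_inter,
    ← isOpenMap_fst.preimage_interior_eq_interior_preimage continuous_fst,
    ← isOpenMap_snd.preimage_interior_eq_interior_preimage continuous_snd,
    ← hf.preimage_interior_eq_interior_preimage f.continuous, interior_Ici, interior_Iic]
  ext x
  simp [f]

theorem Om_closed : IsClosed Om := by
  have h1 : IsClosed {x : ℝ × ℝ | 0 ≤ x.1} := isClosed_le continuous_const continuous_fst
  have h2 : IsClosed {x : ℝ × ℝ | 0 ≤ x.2} := isClosed_le continuous_const continuous_snd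
  have h3 : IsClosed {x : ℝ × ℝ | x.1 + x.2 ≤ NN} :=
    isClosed_le (continuous_fst.add continuous_snd) continuous_const
  exact h1.inter (h2.inter h3)

theorem Om_bounded : Bornology.IsBounded Om := by
  have h : Om ⊆ Set.Icc ((0 : ℝ), (0 : ℝ)) ((NN : ℝ), (NN : ℝ)) := by
    rintro x ⟨h1, h2, h3⟩
    exact ⟨⟨h1, h2⟩, ⟨by simp only; linarith, by simp only; linarith⟩⟩
  exact (isCompact_Icc.isBounded).subset h

theorem Om_homeo : Nonempty (Om ≃ₜ Metric.closedBall (0 : EuclideanSpace ℝ (Fin 2)) 1) := by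
  have hfr : Module.finrank ℝ (ℝ × ℝ) = Module.finrank ℝ (EuclideanSpace ℝ (Fin 2)) := by simp
  let L : (ℝ × ℝ) ≃L[ℝ] EuclideanSpace ℝ (Fin 2) := ContinuousLinearEquiv.ofFinrankEq hfr
  let s : Set (EuclideanSpace ℝ (Fin 2)) := L '' Om
  have hsc : Convex ℝ s := Om_convex.linear_image L.toLinearMap
  have hcomp : IsCompact Om := Metric.isCompact_of_isClosed_isBounded Om_closed Om_bounded
  have hs : IsCompact s := hcomp.image L.continuous
  have hne : (interior s).Nonempty := by
    have : L '' interior Om = interior s := L.toHomeomorph.image_interior Om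
    rw [← this]
    apply Set.Nonempty.image
    rw [interior_Om]
    refine ⟨(1, 1), ?_⟩
    norm_num [NN]
  obtain ⟨h, -, h2, -⟩ := exists_homeomorph_image_interior_closure_frontier_eq_unitBall hsc hne hs.isBounded
  rw [hs.isClosed.closure_eq] at h2
  let e1 : Om ≃ₜ s := L.toHomeomorph.image Om
  let e2 : s ≃ₜ (h '' s) := h.image s
  rw [h2] at e2
  exact ⟨e1.trans e2⟩

theorem P_mem_interior (v : Fin 18) : P v ∈ interior Om ↔ 3 ≤ v := by
  rw [interior_Om]
  constructor
  · intro h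
    by_contra hv
    rcases lt3 hv with rfl | rfl | rfl
    · rw [P0] at h; simp at h
    · rw [P1] at h; simp at h
    · rw [P2] at h; simp at h
  · intro h
    exact P_inside h

theorem count_vertices : {v : ℝ × ℝ | (∃ t ∈ TT, v ∈ t) ∧ v ∈ interior Om}.ncard = 15 := by
  have e : {v : ℝ × ℝ | (∃ t ∈ TT, v ∈ t) ∧ v ∈ interior Om}
      = P '' ((Finset.univ.filter (fun v : Fin 18 => 3 ≤ v) : Finset (Fin 18)) : Set (Fin 18)) := by
    ext x
    simp only [Set.mem_ofPred_eq, mem_TT, Finset.coe_filter, Finset.mem_univ, true_and, Set.mem_image]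
    constructor
    · rintro ⟨⟨_, ⟨t, rfl⟩, hx⟩, hx'⟩
      rw [triP, Finset.mem_map] at hx
      obtain ⟨v, -, rfl⟩ := hx
      exact ⟨v, (P_mem_interior v).1 hx', rfl⟩
    · rintro ⟨v, hv, rfl⟩
      refine ⟨?_, (P_mem_interior v).2 hv⟩
      have : ∃ t : Fin 31, v ∈ triS t := by
        revert v; decide +kernel
      obtain ⟨t, ht'⟩ := this
      exact ⟨triP t, ⟨t, rfl⟩, Finset.mem_map_of_mem Pe ht'⟩
  rw [e, Set.ncard_image_of_injective _ P_inj, Set.ncard_coe_finset]
  decide

end Pool.Agent.Helper35.Spl
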